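import Pool.Agent.L0h86.F1.Two
import Pool.Agent.L0h23.EV.TamC

/-!
# The Tamagawa numbers and the minimality of the curves `y² = x³ + D³`, `D ≡ 1 mod 4`
-/

set_option autoImplicit false
set_option linter.unusedSectionVars false

namespace Pool.Agent.L0h86.F1

open Pool.Agent.Y698 Pool.Agent.L0h4.TW Pool.Agent.L0h4.TA Pool.Agent.L0h23.EV
open NumberField IsDedekindDomain IsCyclotomicExtension.Rat WithZero WeierstrassCurve
open Pool.Agent.H921R2.TatePole Pool.Agent.H82R3.EK
open Pool.Agent.TH841.SH.D (Pt act)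

/-- the curve `y² = x³ + D³`, the quadratic twist by `D` of `y² = x³ + 1` -/
def WM (k : Type*) [CommRing k] (D : ℕ) : WeierstrassCurve k :=
  ⟨0, 0, 0, 0, (D : k) ^ 3⟩

section basic
variable (k : Type*) [CommRing k] (D : ℕ)

lemma WM_Δ : (WM k D).Δ = -(2 ^ 4 * 3 ^ 3 * (D : k) ^ 6) := by
  unfold WM WeierstrassCurve.Δ WeierstrassCurve.b₈ WeierstrassCurve.b₆ WeierstrassCurve.b₄
    WeierstrassCurve.b₂
  ring

lemma WM_c₄ : (WM k D).c₄ = 0 := by
  unfold WM WeierstrassCurve.c₄ WeierstrassCurve.b₄ WeierstrassCurve.b₂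
  ring

lemma WM_c₆ : (WM k D).c₆ = -(864 * (D : k) ^ 3) := by
  unfold WM WeierstrassCurve.c₆ WeierstrassCurve.b₆ WeierstrassCurve.b₄ WeierstrassCurve.b₂
  ring

variable {k}

lemma WM_map {l : Type*} [CommRing l] (φ : k →+* l) : (WM k D).map φ = WM l D := by
  unfold WM
  ext
  · simp
  · simp
  · simp
  · simp
  · simp

end basic

/-- the numbers `D` -/
structure AdmM (D : ℕ) : Prop where
  sf : Squarefree D
  m4 : D % 4 = 1
  n3 : ¬ 3 ∣ D

section placeK

variable {K : Type} [Field K] [NumberField K] (v : HeightOneSpectrum (𝓞 K))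

/-- a square modulo `q` is a square in the completion -/
lemma sq_place {q : ℕ} (hv : (below v : ℕ) = q) (h2 : v.valuation K 2 = 1) {m : ℤ}
    (hmv : v.valuation K ((m : ℤ) : K) = 1) (hs : IsSquare (m : ZMod q)) :
    IsSquare (m : v.adicCompletion K) := by
  have hmem : ((q : ℕ) : 𝓞 K) ∈ v.asIdeal := by
    have := (nm_eq v).2.2
    rwa [hv] at this
  obtain ⟨s, hs⟩ := hs
  obtain ⟨k, rfl⟩ := ZMod.intCast_surjective s
  have h3 : (q : ℤ) ∣ m - k * k := by
    rw [← ZMod.intCast_zmod_eq_zero_iff_dvd _ q]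
    push_cast
    rw [hs]
    ring
  obtain ⟨t, ht⟩ := h3
  exact sq_lift v h2 (m := m) (y := (k : 𝓞 K)) (by
      have e : ((m : ℤ) : 𝓞 K) - (k : 𝓞 K) * (k : 𝓞 K) = (q : 𝓞 K) * (t : 𝓞 K) := by
        have := congrArg (fun z : ℤ => (z : 𝓞 K)) ht
        push_cast at this ⊢
        exact this
      rw [e]
      exact Ideal.mul_mem_right _ _ hmem) hmv

/-- degree one: a square in the completion is a square modulo `q` -/
lemma nsq_place {q : ℕ} (hq : q.Prime) (hv : (below v : ℕ) = q) (hd : deg v = 1) {m : ℤ}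
    (hmv : v.valuation K ((m : ℤ) : K) = 1) (hs : IsSquare (m : v.adicCompletion K)) :
    IsSquare (m : ZMod q) := by
  obtain ⟨z, hz⟩ := hs
  have : Fact q.Prime := ⟨hq⟩
  have hcz := cz_compl v
  have hmv' : (Valued.v : Valuation (v.adicCompletion K) ℤᵐ⁰) ((m : ℤ) : v.adicCompletion K) = 1 := by
    have h4 := val_emb v (m : K)
    rw [map_intCast, hmv] at h4
    exact h4
  have h1 : (Valued.v : Valuation (v.adicCompletion K) ℤᵐ⁰) z = 1 := by
    have h3 := congrArg (Valued.v : Valuation (v.adicCompletion K) ℤᵐ⁰) hz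
    rw [hmv', map_mul] at h3
    have hde : DecidableEq (v.adicCompletion K) := Classical.decEq _
    obtain ⟨k, hk⟩ := exists_exp (Valued.v : Valuation (v.adicCompletion K) ℤᵐ⁰) (x := z) (by
      rintro rfl
      rw [map_zero, mul_zero] at h3
      exact one_ne_zero h3)
    rw [hk, ← exp_add, ← exp_zero, exp_inj] at h3
    have : k = 0 := by omega
    rw [hk, this, exp_zero]
  obtain ⟨y, hy⟩ := Pool.Agent.H723R3.exists_approx_int (R := 𝓞 K) v
    ((HeightOneSpectrum.mem_adicCompletionIntegers (𝓞 K) K v).2 h1.le) 1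
  rw [Units.val_one] at hy
  set Y : v.adicCompletion K := algebraMap (𝓞 K) (v.adicCompletion K) y with hY
  have e0 : Y = algebraMap K (v.adicCompletion K) (algebraMap (𝓞 K) K y) := by
    rw [hY, ← IsScalarTower.algebraMap_apply]
  have h5 : ((m : ℤ) : 𝓞 K) - y * y ∈ v.asIdeal := by
    rw [← v.valuation_lt_one_iff_mem (K := K), ← val_emb]
    show (Valued.v : Valuation (v.adicCompletion K) ℤᵐ⁰) (algebraMap K (v.adicCompletion K)
      (algebraMap (𝓞 K) K (((m : ℤ) : 𝓞 K) - y * y))) < 1
    rw [map_sub, map_mul, map_sub, map_mul, ← e0, map_intCast, map_intCast]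
    have e : ((m : ℤ) : v.adicCompletion K) - Y * Y = -((Y - z) * (Y - z + 2 * z)) := by
      linear_combination hz
    rw [e, Valuation.map_neg, map_mul]
    refine mul_lt_one_of_lt_of_le hy ?_
    refine vadd hy.le (vmul ?_ h1.le)
    exact_mod_cast vnat (Valued.v : Valuation (v.adicCompletion K) ℤᵐ⁰) 2
  obtain ⟨f⟩ := exists_hom v hq hv
  have hp := v.isPrime
  have hcard : Nat.card (𝓞 K ⧸ v.asIdeal) = q := by rw [card_quo, hd, pow_one, hv]
  have hfin : Finite (𝓞 K ⧸ v.asIdeal) := Nat.finite_of_card_ne_zero (by rw [hcard]; exact hq.ne_zero)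
  have hnt : Nontrivial (𝓞 K ⧸ v.asIdeal) := Ideal.Quotient.nontrivial_iff.2 v.isPrime.ne_top
  have hbij : Function.Bijective f := by
    have h8 : Function.Injective f := f.injective
    refine (Nat.bijective_iff_injective_and_card f).2 ⟨h8, ?_⟩
    rw [hcard, Nat.card_zmod]
  obtain ⟨t, ht⟩ := hbij.2 (Ideal.Quotient.mk v.asIdeal y)
  refine ⟨t, hbij.1 ?_⟩
  rw [map_mul, ht, ← map_mul]
  have h9 := (Ideal.Quotient.eq).2 h5
  rw [← h9, map_intCast, map_intCast]

end placeK

section place

variable (v : HeightOneSpectrum (𝓞 ℚ))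

/-- the curve over the completion -/
lemma vmL {D : ℕ} (hD : D ≠ 0) :
    VM ((WM ℚ D).baseChange (v.adicCompletion ℚ)) (D : v.adicCompletion ℚ) := by
  have hW : (WM ℚ D).baseChange (v.adicCompletion ℚ) = WM (v.adicCompletion ℚ) D :=
    WM_map D (algebraMap ℚ (v.adicCompletion ℚ))
  have hn : (D : v.adicCompletion ℚ) ≠ 0 := by
    have := cz_compl v
    exact Nat.cast_ne_zero.2 hD
  rw [hW]
  exact ⟨rfl, rfl, rfl, rfl, rfl, hn⟩

/-- the local numbers -/
noncomputable def Fm (D p : ℕ) : ℕ :=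
  open Classical in
  if p = 2 then (if D % 8 = 1 then 3 else 1) else if p = 3 then 2 else
    if p ∣ D then (if IsSquare (-3 : ZMod p) then 4 else 2) else 1

/-- the Tamagawa numbers -/
theorem tam_WM {D : ℕ} (h : AdmM D) : tam (WM ℚ D) v = Fm D (below v : ℕ) := by
  have := cz_compl v
  have hpr : (below v : ℕ).Prime := (below v).2
  have S := vmL v h.sf.ne_zero
  have hvb := val_Q v
  set w : Valuation (v.adicCompletion ℚ) ℤᵐ⁰ := Valued.v with hw
  unfold Fm
  split_ifs with c2 c8 c3 cD cs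
  · -- `p = 2`, `D ≡ 1 mod 8`
    have w2 : w 2 = exp (-1) := by
      rw [c2, ← embn] at hvb
      exact_mod_cast hvb
    have w1 : w (D : v.adicCompletion ℚ) = 1 := by
      rw [hw, embn]
      exact valn v (by rw [c2]; have := h.m4; omega)
    have w4 : w 4 = exp (-2) := by
      have e : (4 : v.adicCompletion ℚ) = 2 ^ 2 := by norm_num
      rw [e, map_pow, w2, ← exp_nsmul]
      simp
    have w8 : w 8 = exp (-3) := by
      have e : (8 : v.adicCompletion ℚ) = 2 ^ 3 := by norm_num
      rw [e, map_pow, w2, ← exp_nsmul]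
      simp
    obtain ⟨c, hc⟩ : IsSquare ((D : v.adicCompletion ℚ) ^ 3) := by
      refine sq_of_four two_ne_zero _ ?_
      rw [← hw, w4]
      refine lt_of_le_of_lt ?_ (show (exp (-3) : ℤᵐ⁰) < exp (-2) by rw [exp_lt_exp]; norm_num)
      obtain ⟨e, he⟩ : ∃ e, D = 1 + 8 * e := ⟨D / 8, by omega⟩
      have e3 : (D : v.adicCompletion ℚ) ^ 3 - 1 =
          8 * ((3 * e + 24 * e ^ 2 + 64 * e ^ 3 : ℕ) : v.adicCompletion ℚ) := by
        rw [he]
        push_cast
        ring
      rw [e3, map_mul, w8]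
      calc exp (-3) * w ((3 * e + 24 * e ^ 2 + 64 * e ^ 3 : ℕ) : v.adicCompletion ℚ)
          ≤ exp (-3) * 1 := mul_le_mul' le_rfl (vnat w _)
        _ = exp (-3) := mul_one _
    exact @idxM_p2three _ _ _ _ (Classical.decEq _) _ w S w2 w1 c (by rw [hc]; ring)
  · -- `p = 2`, `D ≡ 5 mod 8`
    have w2 : w 2 = exp (-1) := by
      rw [c2, ← embn] at hvb
      exact_mod_cast hvb
    have w8 : w 8 = exp (-3) := by
      have e : (8 : v.adicCompletion ℚ) = 2 ^ 3 := by norm_num
      rw [e, map_pow, w2, ← exp_nsmul]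
      simp
    refine @idxM_p2one _ _ _ _ (Classical.decEq _) _ w S w2 (fun x hx => res2 v c2 x hx) ?_
    obtain ⟨e, he⟩ : ∃ e, D = 5 + 8 * e := ⟨D / 8, by have := h.m4; omega⟩
    have e3 : (D : v.adicCompletion ℚ) - 5 = 8 * ((e : ℕ) : v.adicCompletion ℚ) := by
      rw [he]
      push_cast
      ring
    rw [e3, map_mul, w8]
    calc exp (-3) * w ((e : ℕ) : v.adicCompletion ℚ)
        ≤ exp (-3) * 1 := mul_le_mul' le_rfl (vnat w _)
      _ = exp (-3) := mul_one _
  · -- `p = 3`
    rw [c3] at hvb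
    refine @idxM_three _ _ _ _ _ S (Classical.decEq _) w ?_ ?_
    · rw [← embn] at hvb
      exact_mod_cast hvb
    · rw [hw, embn]
      exact valn v (by rw [c3]; exact h.n3)
  · -- `p ∣ D`, `-3` a square
    have h2 : w 2 = 1 := by
      have := valn v (n := 2) (fun hd => c2 ((Nat.prime_dvd_prime_iff_eq hpr Nat.prime_two).1 hd))
      rw [← embn] at this
      exact_mod_cast this
    have h3 : w 3 = 1 := by
      have := valn v (n := 3) (fun hd => c3 ((Nat.prime_dvd_prime_iff_eq hpr Nat.prime_three).1 hd))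
      rw [← embn] at this
      exact_mod_cast this
    have h2' : v.valuation ℚ 2 = 1 := by
      exact_mod_cast valn v (n := 2)
        (fun hd => c2 ((Nat.prime_dvd_prime_iff_eq hpr Nat.prime_two).1 hd))
    have h3' : v.valuation ℚ 3 = 1 := by
      exact_mod_cast valn v (n := 3)
        (fun hd => c3 ((Nat.prime_dvd_prime_iff_eq hpr Nat.prime_three).1 hd))
    have hn3 : v.valuation ℚ ((-3 : ℤ) : ℚ) = 1 := by
      push_cast
      rw [Valuation.map_neg, h3']
    obtain ⟨z, hz⟩ := sq_place v rfl h2' hn3 (by push_cast; exact cs)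
    push_cast at hz
    refine @idxM_four _ _ _ _ _ S (Classical.decEq _) w h2 h3 ?_ ((z - 1) / 2) ?_
    · rw [hw, embn]
      exact valD v h.sf cD
    · field_simp
      linear_combination -hz
  · -- `p ∣ D`, `-3` not a square
    have h2' : v.valuation ℚ 2 = 1 := by
      exact_mod_cast valn v (n := 2)
        (fun hd => c2 ((Nat.prime_dvd_prime_iff_eq hpr Nat.prime_two).1 hd))
    have h2 : w 2 = 1 := by
      have h4 := val_emb v 2
      rw [h2', map_ofNat] at h4
      exact h4
    have h3 : w 3 = 1 := by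
      have := valn v (n := 3) (fun hd => c3 ((Nat.prime_dvd_prime_iff_eq hpr Nat.prime_three).1 hd))
      rw [← embn] at this
      exact_mod_cast this
    have h3' : v.valuation ℚ 3 = 1 := by
      exact_mod_cast valn v (n := 3)
        (fun hd => c3 ((Nat.prime_dvd_prime_iff_eq hpr Nat.prime_three).1 hd))
    have hn3 : v.valuation ℚ ((-3 : ℤ) : ℚ) = 1 := by
      push_cast
      rw [Valuation.map_neg, h3']
    refine @idxM_two _ _ _ _ _ S (Classical.decEq _) w h2 h3 ?_ (hensel_sq v h2') ?_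
    · rw [hw, embn]
      exact valD v h.sf cD
    · intro hs
      apply cs
      have := nsq_place v hpr rfl (deg_Q v) hn3 (by push_cast; exact hs)
      push_cast at this
      exact this
  · -- good reduction
    have h2 : w 2 = 1 := by
      have := valn v (n := 2) (fun hd => c2 ((Nat.prime_dvd_prime_iff_eq hpr Nat.prime_two).1 hd))
      rw [← embn] at this
      exact_mod_cast this
    have h3 : w 3 = 1 := by
      have := valn v (n := 3) (fun hd => c3 ((Nat.prime_dvd_prime_iff_eq hpr Nat.prime_three).1 hd))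
      rw [← embn] at this
      exact_mod_cast this
    refine @idxM_one _ _ _ _ _ _ _ S (Classical.decEq _) h2 h3 ?_
    rw [embn]
    exact valn v cD

/-- **minimality** -/
theorem minimal_WM {D : ℕ} (h : AdmM D) : MinimalAt (WM ℚ D) v := by
  have hpr : (below v : ℕ).Prime := (below v).2
  have hvb := val_Q v
  have hΔ : v.valuation ℚ (WM ℚ D).Δ =
      v.valuation ℚ 2 ^ 4 * v.valuation ℚ 3 ^ 3 * v.valuation ℚ (D : ℚ) ^ 6 := by
    rw [WM_Δ, Valuation.map_neg, map_mul, map_mul, map_pow, map_pow, map_pow]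
  by_cases c2 : (below v : ℕ) = 2
  · apply minimal_of (k := 4) (by norm_num)
    have h2 : v.valuation ℚ 2 = exp (-1) := by
      rw [c2] at hvb
      exact_mod_cast hvb
    have h3 : v.valuation ℚ 3 = 1 := by exact_mod_cast valn v (n := 3) (by rw [c2]; norm_num)
    rw [hΔ, h2, h3, valn v (by rw [c2]; have := h.m4; omega), one_pow, one_pow, mul_one, mul_one,
      ← exp_nsmul]
    simp
  have h2 : v.valuation ℚ 2 = 1 := by
    exact_mod_cast valn v (n := 2) (fun hd => c2 ((Nat.prime_dvd_prime_iff_eq hpr Nat.prime_two).1 hd))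
  by_cases c3 : (below v : ℕ) = 3
  · apply minimal_of (k := 3) (by norm_num)
    have h3 : v.valuation ℚ 3 = exp (-1) := by
      rw [c3] at hvb
      exact_mod_cast hvb
    rw [hΔ, h2, h3, valn v (by rw [c3]; exact h.n3), one_pow, one_pow, mul_one, one_mul, ← exp_nsmul]
    simp
  have h3 : v.valuation ℚ 3 = 1 := by
    exact_mod_cast valn v (n := 3) (fun hd => c3 ((Nat.prime_dvd_prime_iff_eq hpr Nat.prime_three).1 hd))
  by_cases cD : (below v : ℕ) ∣ D
  · apply minimal_of (k := 6) (by norm_num)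
    rw [hΔ, h2, h3, valD v h.sf cD, one_pow, one_pow, one_mul, one_mul, ← exp_nsmul]
    simp
  · apply minimal_of (k := 0) (by norm_num)
    rw [hΔ, h2, h3, valn v cD, one_pow, one_pow, one_pow, mul_one]
    simp

end place

/-- `-3` is a square modulo `p` exactly when `p ≡ 1 mod 3` -/
lemma sq_m3 {p : ℕ} (hp : p.Prime) (h2 : p ≠ 2) (h3 : p ≠ 3) :
    IsSquare (-3 : ZMod p) ↔ p % 3 = 1 := by
  have : Fact p.Prime := ⟨hp⟩
  have n2 : (2 : ZMod p) ≠ 0 := by
    intro h
    have : ((2 : ℕ) : ZMod p) = 0 := by exact_mod_cast h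
    rw [ZMod.natCast_eq_zero_iff] at this
    exact h2 ((Nat.prime_dvd_prime_iff_eq hp Nat.prime_two).1 this)
  have n3 : (3 : ZMod p) ≠ 0 := by
    intro h
    have : ((3 : ℕ) : ZMod p) = 0 := by exact_mod_cast h
    rw [ZMod.natCast_eq_zero_iff] at this
    exact h3 ((Nat.prime_dvd_prime_iff_eq hp Nat.prime_three).1 this)
  have hcard : Fintype.card (ZMod p)ˣ = p - 1 := ZMod.card_units p
  constructor
  · rintro ⟨s, hs⟩
    set w : ZMod p := (s - 1) / 2 with hw
    have hw1 : w ^ 2 + w + 1 = 0 := by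
      rw [hw]
      field_simp
      linear_combination -hs
    have hw3 : w ^ 3 = 1 := by linear_combination (w - 1) * hw1
    have hw0 : w ≠ 1 := by
      intro h
      rw [h] at hw1
      apply n3
      linear_combination hw1
    have hwu : w ≠ 0 := by
      intro h
      rw [h] at hw3
      norm_num at hw3
    have ho : orderOf (Units.mk0 w hwu) = 3 := by
      have := Fact.mk Nat.prime_three
      apply orderOf_eq_prime
      · ext
        push_cast
        exact hw3
      · intro h
        apply hw0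
        have := congrArg (fun u : (ZMod p)ˣ => (u : ZMod p)) h
        exact this
    have hd : 3 ∣ p - 1 := by
      rw [← ho, ← hcard]
      exact orderOf_dvd_card
    have := hp.two_le
    omega
  · intro h
    have hd : 3 ∣ Fintype.card (ZMod p)ˣ := by
      rw [hcard]
      omega
    have := Fact.mk Nat.prime_three
    obtain ⟨u, hu⟩ := exists_prime_orderOf_dvd_card 3 hd
    have hu3 : u ^ 3 = 1 := by rw [← hu]; exact pow_orderOf_eq_one u
    have hu1 : u ≠ 1 := by
      rintro rfl
      rw [orderOf_one] at hu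
      omega
    have hw3 : ((u : ZMod p)) ^ 3 = 1 := by
      have := congrArg (fun u : (ZMod p)ˣ => (u : ZMod p)) hu3
      push_cast at this
      exact this
    have hw1 : (u : ZMod p) - 1 ≠ 0 := by
      intro h0
      apply hu1
      ext
      push_cast
      linear_combination h0
    have h6 : (u : ZMod p) ^ 2 + u + 1 = 0 := by
      apply mul_left_cancel₀ hw1
      linear_combination hw3
    exact ⟨2 * u + 1, by linear_combination -4 * h6⟩

/-- the prime divisors of `D` which are congruent to one modulo three -/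
def M1 (D : ℕ) : Finset ℕ := D.primeFactors.filter fun p => p % 3 = 1

/-- the prime divisors of `D` which are congruent to two modulo three -/
def M2 (D : ℕ) : Finset ℕ := D.primeFactors.filter fun p => p % 3 = 2

/-- **the product of the Tamagawa numbers** -/
theorem prodtam_WM {D : ℕ} (h : AdmM D) :
    ∏ᶠ v : HeightOneSpectrum (𝓞 ℚ), tam (WM ℚ D) v =
      2 * (if D % 8 = 1 then 3 else 1) * 2 ^ ((M2 D).card + 2 * (M1 D).card) := by
  classical
  have hD0 : D ≠ 0 := h.sf.ne_zero
  have h2S : 2 ∉ D.primeFactors := fun hc => by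
    have := Nat.dvd_of_mem_primeFactors hc
    have := h.m4
    omega
  have h3S : 3 ∉ D.primeFactors := fun hc => h.n3 (Nat.dvd_of_mem_primeFactors hc)
  have e1 : ∏ᶠ v : HeightOneSpectrum (𝓞 ℚ), tam (WM ℚ D) v = ∏ᶠ q : Nat.Primes, Fm D (q : ℕ) :=
    (finprod_congr fun v => tam_WM v h).trans
      (finprod_comp (g := fun q : Nat.Primes => Fm D (q : ℕ)) (below (K := ℚ)) below_bij)
  have e2 : ∏ᶠ q : Nat.Primes, Fm D (q : ℕ) = ∏ᶠ (p : ℕ) (_ : p.Prime), Fm D p :=
    finprod_subtype_eq_finprod_cond (f := fun p => Fm D p) Nat.Prime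
  have e3 : ∏ᶠ (p : ℕ) (_ : p.Prime), Fm D p = ∏ p ∈ insert 2 (insert 3 D.primeFactors), Fm D p := by
    refine finprod_cond_eq_prod_of_cond_iff _ ?_
    intro p hp
    rw [Finset.mem_insert, Finset.mem_insert]
    constructor
    · intro hpp
      by_contra hcon
      push Not at hcon
      obtain ⟨h2, h7, h3⟩ := hcon
      apply hp
      unfold Fm
      rw [if_neg h2, if_neg h7, if_neg]
      intro hd
      exact h3 (Nat.mem_primeFactors.2 ⟨hpp, hd, hD0⟩)
    · rintro (rfl | rfl | h3)
      · exact Nat.prime_two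
      · exact Nat.prime_three
      · exact Nat.prime_of_mem_primeFactors h3
  rw [e1, e2, e3, Finset.prod_insert (by
    rw [Finset.mem_insert]
    rintro (h3 | h3)
    · omega
    · exact h2S h3), Finset.prod_insert h3S]
  have e4 : Fm D 2 = if D % 8 = 1 then 3 else 1 := by unfold Fm; rw [if_pos rfl]
  have e5 : Fm D 3 = 2 := by unfold Fm; rw [if_neg (by norm_num), if_pos rfl]
  have e6 : ∏ p ∈ D.primeFactors, Fm D p = 2 ^ (M2 D).card * 4 ^ (M1 D).card := by
    rw [Finset.prod_congr rfl (g := fun p => if p % 3 = 1 then 4 else 2),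
      Finset.prod_ite, Finset.prod_const, Finset.prod_const, mul_comm]
    · congr 3
      unfold M2
      apply Finset.filter_congr
      intro p hp
      have hpp := Nat.prime_of_mem_primeFactors hp
      have h3 : ¬ 3 ∣ p := by
        intro hc
        have : 3 = p := (Nat.prime_dvd_prime_iff_eq Nat.prime_three hpp).1 hc
        exact h3S (this ▸ hp)
      omega
    · intro p hp
      have hpp := Nat.prime_of_mem_primeFactors hp
      have h2 : p ≠ 2 := fun hc => h2S (hc ▸ hp)
      have h3 : p ≠ 3 := fun hc => h3S (hc ▸ hp)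
      unfold Fm
      rw [if_neg h2, if_neg h3, if_pos (Nat.dvd_of_mem_primeFactors hp)]
      have h5 := sq_m3 hpp h2 h3
      by_cases h6 : p % 3 = 1
      · rw [if_pos (h5.2 h6), if_pos h6]
      · rw [if_neg (fun h7 => h6 (h5.1 h7)), if_neg h6]
  rw [e4, e5, e6]
  have e7 : (4 : ℕ) = 2 ^ 2 := by norm_num
  rw [e7, ← pow_mul, pow_add]
  ring

end Pool.Agent.L0h86.F1
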