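import Pool.Agent.L0h23.EV.TamA

/-!
# The points with nonsingular reduction on `y² = x³ + δ³`
-/

set_option autoImplicit false
set_option linter.unusedSectionVars false

namespace Pool.Agent.L0h86.F1

open Pool.Agent.Y698 Pool.Agent.L0h23.EV WeierstrassCurve WithZero

/-- the curve `y² = x³ + δ³` -/
structure VM {L : Type} [Field L] (W : WeierstrassCurve L) (δ : L) : Prop where
  h1 : W.a₁ = 0
  h2 : W.a₂ = 0
  h3 : W.a₃ = 0
  h4 : W.a₄ = 0
  h6 : W.a₆ = δ ^ 3
  hδ : δ ≠ 0

/-- the equation in the coordinate `X = x + δ` -/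
def Meq {L : Type} [Field L] (δ X Y : L) : Prop :=
  Y ^ 2 = X ^ 3 - 3 * δ * X ^ 2 + 3 * δ ^ 2 * X

section alg

variable {L : Type} [Field L] {δ : L} {W : WeierstrassCurve L} (S : VM W δ)

include S in
lemma VM.eqn {x y : L} (h : W.toAffine.Equation x y) : y ^ 2 = x ^ 3 + δ ^ 3 := by
  rw [Affine.equation_iff, S.h1, S.h2, S.h3, S.h4, S.h6] at h
  linear_combination h

include S in
lemma VM.eeq {x y : L} (h : W.toAffine.Equation x y) : Meq δ (x + δ) y := by
  have := S.eqn h
  unfold Meq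
  linear_combination this

include S in
lemma VM.w0 [CharZero L] : Wr W (-δ) (-3 * δ) (3 * δ ^ 2) where
  k1 := S.h1
  k2 := by rw [S.h2]; ring
  k3 := S.h3
  k4 := by rw [S.h4]; ring
  k6 := by rw [S.h6]; ring
  hβ := mul_ne_zero (by norm_num) (pow_ne_zero 2 S.hδ)

/-- one root, `w` a primitive cube root of unity -/
def rA (δ w : L) : L := δ * (1 - w)

/-- the other root -/
def rB (δ w : L) : L := δ * (2 + w)

lemma rA_sub (δ w : L) : rA δ w - rB δ w = -(δ * (2 * w + 1)) := by unfold rA rB; ring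

lemma rA_mul {w : L} (hw : w ^ 2 + w + 1 = 0) : rA δ w * rB δ w = 3 * δ ^ 2 := by
  unfold rA rB
  linear_combination (-δ ^ 2) * hw

lemma rA_add (δ w : L) : rA δ w + rB δ w = 3 * δ := by unfold rA rB; ring

lemma two_w_ne [CharZero L] {w : L} (hw : w ^ 2 + w + 1 = 0) : 2 * w + 1 ≠ 0 := by
  intro h
  have h1 : (2 * w + 1) ^ 2 = -3 := by linear_combination 4 * hw
  rw [h, zero_pow two_ne_zero] at h1
  norm_num at h1

lemma rA_ne [CharZero L] {w : L} (hw : w ^ 2 + w + 1 = 0) (hδ : δ ≠ 0) : rA δ w ≠ 0 := by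
  intro h
  have h1 := rA_mul (δ := δ) hw
  rw [h, zero_mul] at h1
  exact mul_ne_zero (show (3 : L) ≠ 0 by norm_num) (pow_ne_zero 2 hδ) h1.symm

lemma Meq.fac {w X Y : L} (hw : w ^ 2 + w + 1 = 0) (h : Meq δ X Y) :
    Y ^ 2 = X * (X - rA δ w) * (X - rB δ w) := by
  unfold Meq at h
  have h1 := rA_mul (δ := δ) hw
  have h2 := rA_add δ w
  linear_combination h + X ^ 2 * h2 - X * h1

include S in
lemma VM.w1 [CharZero L] {w : L} (hw : w ^ 2 + w + 1 = 0) :
    Wr W (-δ + rA δ w) (2 * rA δ w - rB δ w) (rA δ w * (rA δ w - rB δ w)) where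
  k1 := S.h1
  k2 := by rw [S.h2]; unfold rA rB; ring
  k3 := S.h3
  k4 := by
    rw [S.h4]
    unfold rA rB
    linear_combination (δ ^ 2) * hw
  k6 := by
    rw [S.h6]
    unfold rA rB
    linear_combination (δ ^ 3) * hw
  hβ := by
    refine mul_ne_zero (rA_ne hw S.hδ) ?_
    rw [rA_sub]
    exact neg_ne_zero.2 (mul_ne_zero S.hδ (two_w_ne hw))

end alg

section val

variable {L : Type} [Field L] {Γ : Type} [LinearOrderedCommGroupWithZero Γ] {v : Valuation L Γ} {δ : L}

lemma y_intM {x y : L} (hd : v δ ≤ 1) (h : y ^ 2 = x ^ 3 + δ ^ 3) (hx : v x ≤ 1) : v y ≤ 1 := by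
  by_contra h1
  push Not at h1
  have h2 : v (y ^ 2) ≤ 1 := by
    rw [h]
    exact vadd (vpow hx 3) (vpow hd 3)
  rw [map_pow] at h2
  exact absurd h2 (not_le.2 (one_lt_pow₀ h1 two_ne_zero))

/-- nonsingular reduction -/
def NM (v : Valuation L Γ) (x y : L) : Prop :=
  1 < v x ∨ v (0 * y - (3 * x ^ 2 + 2 * 0 * x + 0)) = 1 ∨ v (2 * y + 0 * x + 0) = 1

lemma NM_iff (x y : L) : NM v x y ↔ (1 < v x ∨ v (3 * x ^ 2) = 1 ∨ v (2 * y) = 1) := by
  unfold NM
  have e1 : 0 * y - (3 * x ^ 2 + 2 * 0 * x + 0) = -(3 * x ^ 2) := by ring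
  have e2 : 2 * y + 0 * x + 0 = 2 * y := by ring
  rw [e1, e2, Valuation.map_neg]

/-- all points have nonsingular reduction away from `6 δ` -/
theorem good_redM (h2 : v (2 : L) = 1) (h3 : v (3 : L) = 1) (hD : v δ = 1) {x y : L}
    (h : y ^ 2 = x ^ 3 + δ ^ 3) : NM v x y := by
  rw [NM_iff]
  rcases lt_or_ge 1 (v x) with hx | hx
  · exact Or.inl hx
  right
  have hy := y_intM hD.le h hx
  by_contra hcon
  push Not at hcon
  obtain ⟨c1, c2⟩ := hcon
  have l1 : v x < 1 := by
    refine lt_of_le_of_ne hx fun h0 => c1 ?_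
    rw [map_mul, map_pow, h3, h0, one_pow, one_mul]
  have l2 : v y < 1 := by
    refine lt_of_le_of_ne hy fun h0 => c2 ?_
    rw [map_mul, h2, h0, one_mul]
  have e3 : δ ^ 3 = y ^ 2 + -(x ^ 3) := by rw [h]; ring
  have l3 : v (δ ^ 3) < 1 := by
    rw [e3]
    exact vaddl (vpowl l2 two_ne_zero) (by rw [Valuation.map_neg]; exact vpowl l1 three_ne_zero)
  rw [map_pow, hD, one_pow] at l3
  exact lt_irrefl _ l3

/-- the points with nonsingular reduction at the primes dividing `3 δ` -/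
theorem sing_redM (hd : v δ ≤ 1) (h2 : v (2 : L) = 1) (l3 : v (3 * δ) < 1) {x y : L}
    (h : y ^ 2 = x ^ 3 + δ ^ 3) : NM v x y ↔ 1 ≤ v (x + δ) := by
  have h3' : v (3 : L) ≤ 1 := by exact_mod_cast vnat v 3
  have hE : y ^ 2 = (x + δ) ^ 3 + -(3 * δ) * (x + δ) ^ 2 + 3 * δ * δ * (x + δ) := by
    rw [h]; ring
  rw [NM_iff]
  set X := x + δ with hX
  have ex : x = X + -δ := by rw [hX]; ring
  have hnd : v (-δ) ≤ 1 := by rw [Valuation.map_neg]; exact hd
  have l3n : v (-(3 * δ)) < 1 := by rw [Valuation.map_neg]; exact l3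
  have l3d : v (3 * δ * δ) < 1 := vmulr l3 hd
  constructor
  · intro hc
    by_contra h1
    push Not at h1
    have hx1 : v x ≤ 1 := by rw [ex]; exact vadd h1.le hnd
    rcases hc with hc | hc | hc
    · exact absurd hx1 (not_le.2 hc)
    · have e : 3 * x ^ 2 = 3 * X ^ 2 + (-(3 * δ) * (2 * X) + 3 * δ * δ) := by rw [ex]; ring
      have l1 : v (3 * x ^ 2) < 1 := by
        rw [e]
        refine vaddl (vmull h3' (vpowl h1 two_ne_zero)) (vaddl (vmulr l3n (vmul h2.le h1.le)) l3d)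
      rw [hc] at l1
      exact lt_irrefl _ l1
    · have l2 : v (y ^ 2) < 1 := by
        rw [hE]
        exact vaddl (vaddl (vpowl h1 three_ne_zero) (vmull l3n.le (vpowl h1 two_ne_zero)))
          (vmull l3d.le h1)
      have l4 : v y < 1 := by
        by_contra h5
        push Not at h5
        rw [map_pow] at l2
        exact absurd l2 (not_lt.2 (one_le_pow₀ h5))
      rw [map_mul, h2, one_mul] at hc
      rw [hc] at l4
      exact lt_irrefl _ l4
  · intro h1
    rcases h1.lt_or_eq with h5 | h5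
    · left
      rw [ex, v.map_add_eq_of_lt_left (hnd.trans_lt h5)]
      exact h5
    · right; right
      have h6 : v (X ^ 2 + -(3 * δ) * X + 3 * δ * δ) = 1 := by
        have e : X ^ 2 + -(3 * δ) * X + 3 * δ * δ = X ^ 2 + (-(3 * δ) * X + 3 * δ * δ) := by ring
        rw [e, v.map_add_eq_of_lt_left]
        · rw [map_pow, ← h5, one_pow]
        · rw [map_pow, ← h5, one_pow]
          exact vaddl (vmulr l3n h5.ge) l3d
      have h7'' : v (y ^ 2) = 1 := by
        have e : y ^ 2 = X * (X ^ 2 + -(3 * δ) * X + 3 * δ * δ) := by rw [hE]; ring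
        rw [e, map_mul, h6, ← h5, one_mul]
      have h8' : v y = 1 := by
        rw [map_pow] at h7''
        exact (pow_eq_one_iff_of_nonneg zero_le two_ne_zero).1 h7''
      rw [map_mul, h2, h8', one_mul]

variable {W : WeierstrassCurve L} (S : VM W δ) [DecidableEq L]

include S in
/-- from a criterion to the index -/
theorem idx_ofM (G : AddSubgroup W.toAffine.Point)
    (hG : ∀ (x y : L) (h : W.toAffine.Nonsingular x y),
      NM v x y ↔ (.some x y h : W.toAffine.Point) ∈ G) :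
    (AddSubgroup.closure {P : W.toAffine.Point | ∀ x y h, P = Affine.Point.some x y h →
      1 < v x ∨ v (W.a₁ * y - (3 * x ^ 2 + 2 * W.a₂ * x + W.a₄)) = 1 ∨
      v (2 * y + W.a₁ * x + W.a₃) = 1}).index = G.index := by
  rw [S.h1, S.h2, S.h3, S.h4]
  have hset : {P : W.toAffine.Point | ∀ x y h, P = Affine.Point.some x y h →
      1 < v x ∨ v (0 * y - (3 * x ^ 2 + 2 * 0 * x + 0)) = 1 ∨
      v (2 * y + 0 * x + 0) = 1} = (G : Set W.toAffine.Point) := by
    apply Set.ext
    intro P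
    rw [SetLike.mem_coe]
    constructor
    · intro hP
      rcases P with _ | ⟨x, y, h⟩
      · exact G.zero_mem
      · exact (hG x y h).1 (hP x y h rfl)
    · intro hP x y h e
      rw [e] at hP
      exact (hG x y h).2 hP
  rw [hset, AddSubgroup.closure_eq]

include S in
/-- good reduction -/
theorem idxM_one (h2 : v (2 : L) = 1) (h3 : v (3 : L) = 1) (hD : v δ = 1) :
    (AddSubgroup.closure {P : W.toAffine.Point | ∀ x y h, P = Affine.Point.some x y h →
      1 < v x ∨ v (W.a₁ * y - (3 * x ^ 2 + 2 * W.a₂ * x + W.a₄)) = 1 ∨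
      v (2 * y + W.a₁ * x + W.a₃) = 1}).index = 1 := by
  rw [idx_ofM S ⊤ (fun x y h => ?_), AddSubgroup.index_top]
  exact ⟨fun _ => AddSubgroup.mem_top _, fun _ => good_redM h2 h3 hD (S.eqn h.1)⟩

end val

section val2

variable {L : Type} [Field L] [CharZero L] {δ : L} {W : WeierstrassCurve L} (S : VM W δ)
  [DecidableEq L] {v : Valuation L ℤᵐ⁰}

/-- the parity criterion above `3` -/
theorem parityM (h3 : v (3 : L) = exp (-1)) (hD : v δ = 1) {X Y : L}
    (h : Meq δ X Y) : 1 ≤ v X ↔ ∃ k : ℤ, v X = exp (2 * k) := by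
  unfold Meq at h
  have h112 : v (3 * δ ^ 2) = exp (-1) := by
    rw [map_mul, map_pow, hD, one_pow, mul_one, h3]
  have h21 : v (-(3 * δ)) ≤ exp (-1) := by
    rw [Valuation.map_neg, map_mul, hD, mul_one, h3]
  constructor
  · intro h1
    rcases h1.eq_or_lt with h2 | h2
    · exact ⟨0, by rw [← h2]; simp⟩
    · have hX0 : X ≠ 0 := by
        rintro rfl
        simp at h1
      obtain ⟨m, hm⟩ := exists_exp v hX0
      have hm0 : 0 < m := by
        rw [hm, ← exp_zero, exp_lt_exp] at h2; exact h2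
      have e : X ^ 3 - 3 * δ * X ^ 2 + 3 * δ ^ 2 * X =
        X ^ 3 + (-(3 * δ) * X ^ 2 + 3 * δ ^ 2 * X) := by ring
      have hlt : v (-(3 * δ) * X ^ 2 + 3 * δ ^ 2 * X) < v (X ^ 3) := by
        rw [map_pow, hm, exp_cube]
        apply v.map_add_lt
        · rw [map_mul, map_pow, hm, exp_sq]
          calc v (-(3 * δ)) * exp (2 * m) ≤ exp (-1) * exp (2 * m) := by gcongr
            _ = exp (-1 + 2 * m) := (exp_add _ _).symm
            _ < exp (3 * m) := by rw [exp_lt_exp]; omega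
        · rw [map_mul, hm, h112, ← exp_add, exp_lt_exp]; omega
      have h3 : v (Y ^ 2) = v (X ^ 3) := by
        rw [h, e]
        exact v.map_add_eq_of_lt_left hlt
      have hY0 : Y ≠ 0 := by
        rintro rfl
        rw [map_pow, map_pow, hm, map_zero, exp_cube] at h3
        exact exp_ne_zero (by rw [← h3]; simp)
      obtain ⟨l, hl⟩ := exists_exp v hY0
      rw [map_pow, map_pow, hm, hl, exp_cube, exp_sq, exp_inj] at h3
      exact ⟨m / 2, by rw [hm, exp_inj]; omega⟩
  · rintro ⟨k, hk⟩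
    by_contra h1
    push Not at h1
    rw [hk, ← exp_zero, exp_lt_exp] at h1
    have hX0 : X ≠ 0 := by
      rintro rfl
      rw [map_zero] at hk
      exact exp_ne_zero hk.symm
    have hlt : v (X ^ 2 + -(3 * δ) * X) < v (3 * δ ^ 2) := by
      rw [h112]
      apply v.map_add_lt
      · rw [map_pow, hk, exp_sq, exp_lt_exp]; omega
      · rw [map_mul, hk]
        calc v (-(3 * δ)) * exp (2 * k) ≤ exp (-1) * exp (2 * k) := by gcongr
          _ = exp (-1 + 2 * k) := (exp_add _ _).symm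
          _ < exp (-1) := by rw [exp_lt_exp]; omega
    have h3 : v (X ^ 2 + -(3 * δ) * X + 3 * δ ^ 2) = exp (-1) := by
      rw [v.map_add_eq_of_lt_right hlt, h112]
    have h4 : v (Y ^ 2) = exp (2 * k + -1) := by
      have e : Y ^ 2 = X * (X ^ 2 + -(3 * δ) * X + 3 * δ ^ 2) := by rw [h]; ring
      rw [e, map_mul, h3, hk, ← exp_add]
    have hY0 : Y ≠ 0 := by
      rintro rfl
      rw [map_pow, map_zero] at h4
      exact exp_ne_zero (by rw [← h4]; simp)
    obtain ⟨l, hl⟩ := exists_exp v hY0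
    rw [map_pow, hl, exp_sq, exp_inj] at h4
    omega

omit [CharZero L] [DecidableEq L] in
lemma v_two_of3 (h3 : v (3 : L) = exp (-1)) : v (2 : L) = 1 := by
  have h2 : v (2 : L) ≤ 1 := by exact_mod_cast vnat v 2
  refine le_antisymm h2 ?_
  by_contra hc
  push Not at hc
  have h1 : v (1 : L) < 1 := by
    have e : (1 : L) = 3 + -2 := by norm_num
    rw [e]
    refine vaddl ?_ (by rw [Valuation.map_neg]; exact hc)
    rw [h3, ← exp_zero, exp_lt_exp]
    norm_num
  rw [map_one] at h1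
  exact lt_irrefl _ h1

include S in
/-- index two at a place above `3` -/
theorem idxM_three (h3 : v (3 : L) = exp (-1)) (hD : v δ = 1) :
    (AddSubgroup.closure {P : W.toAffine.Point | ∀ x y h, P = Affine.Point.some x y h →
      1 < v x ∨ v (W.a₁ * y - (3 * x ^ 2 + 2 * W.a₂ * x + W.a₄)) = 1 ∨
      v (2 * y + W.a₁ * x + W.a₃) = 1}).index = 2 := by
  have h2 := v_two_of3 (v := v) h3
  have l3 : v (3 * δ ^ 2) = exp (-1) := by
    rw [map_mul, map_pow, hD, one_pow, mul_one, h3]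
  have l3' : v (3 * δ) < 1 := by
    rw [map_mul, hD, mul_one, h3, ← exp_zero, exp_lt_exp]
    norm_num
  have hodd : ¬ Evo v (3 * δ ^ 2) := not_evo (k := -1) (by rw [l3]; rfl)
  rw [idx_ofM S (GP S.w0 (mq_evo v)) (fun x y h => ?_)]
  · refine GP_index S.w0 (mq_evo v) (evo_dich v) (Q := Te S.w0) ?_
    unfold Te
    rw [mem_GP, dv_T]
    exact hodd
  · rw [sing_redM hD.le h2 l3' (S.eqn h.1), parityM h3 hD (S.eeq h.1), mem_GP]
    by_cases hX : x = -δ
    · rw [hX, dv_T, neg_add_cancel, map_zero]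
      refine ⟨fun ⟨k, hk⟩ => absurd hk.symm exp_ne_zero, fun h => absurd h hodd⟩
    · rw [dv_ne hX, sub_neg_eq_add]
      exact Iff.rfl

section bad

variable (h2 : v (2 : L) = 1) (h3 : v (3 : L) = 1) (hD : v δ = exp (-1))

include h3 hD in
lemma lbadM : v (3 * δ) < 1 ∧ v (3 * δ ^ 2) = exp (-2) := by
  constructor
  · rw [map_mul, h3, one_mul, hD, ← exp_zero, exp_lt_exp]
    norm_num
  · rw [map_mul, map_pow, h3, hD, exp_sq]
    simp

include h3 hD in
/-- large `X` are squares -/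
lemma big_sqM (hH : ∀ x : L, v (x - 1) < 1 → IsSquare x) {X Y : L} (h : Meq δ X Y) (h1 : 1 ≤ v X) :
    IsSquare X := by
  obtain ⟨l21, l112⟩ := lbadM h3 hD
  have l21n : v (-(3 * δ)) < 1 := by rw [Valuation.map_neg]; exact l21
  have l112' : v (3 * δ ^ 2) < 1 := by
    rw [l112, ← exp_zero, exp_lt_exp]; norm_num
  unfold Meq at h
  have hX0 : X ≠ 0 := by
    rintro rfl
    rw [map_zero] at h1
    exact absurd h1 (by simp)
  have hXi : v X⁻¹ ≤ 1 := by
    rw [map_inv₀]
    exact inv_le_one_of_one_le₀ h1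
  set t : L := 1 + -(3 * δ) * X⁻¹ + 3 * δ ^ 2 * (X⁻¹) ^ 2 with ht
  obtain ⟨z, hz⟩ := hH t (by
    have e : t - 1 = -(3 * δ) * X⁻¹ + 3 * δ ^ 2 * (X⁻¹) ^ 2 := by rw [ht]; ring
    rw [e]
    exact vaddl (vmulr l21n hXi) (vmulr l112' (vpow hXi 2)))
  have ht0 : t ≠ 0 := by
    intro h0
    have h5 : v t = 1 := by
      have e : t = 1 + (-(3 * δ) * X⁻¹ + 3 * δ ^ 2 * (X⁻¹) ^ 2) := by rw [ht]; ring
      rw [e, v.map_add_eq_of_lt_left, map_one]
      rw [map_one]
      exact vaddl (vmulr l21n hXi) (vmulr l112' (vpow hXi 2))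
    rw [h0, map_zero] at h5
    exact zero_ne_one h5
  have hz0 : z ≠ 0 := by
    rintro rfl
    rw [mul_zero] at hz
    exact ht0 hz
  refine ⟨Y / (X * z), ?_⟩
  have e1 : Y ^ 2 = X ^ 3 * t := by
    rw [h, ht]
    field_simp
    ring
  rw [hz] at e1
  field_simp
  linear_combination -e1

include h2 h3 hD in
/-- small `X`, when `-3` is not a square -/
lemma small_valM (hH : ∀ x : L, v (x - 1) < 1 → IsSquare x) (hns : ¬ IsSquare (-3 : L)) {X Y : L}
    (hX0 : X ≠ 0) (h : Meq δ X Y) (h1 : v X < 1) : 1 ≤ v (3 * δ ^ 2 / X) := by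
  obtain ⟨l21, l112⟩ := lbadM h3 hD
  unfold Meq at h
  have hδ0 : δ ≠ 0 := by
    rintro rfl
    rw [map_zero] at hD
    exact exp_ne_zero hD.symm
  obtain ⟨m, hm⟩ := exists_exp v hX0
  rw [hm, ← exp_zero, exp_lt_exp] at h1
  rw [map_div₀, l112, hm, ← exp_sub, ← exp_zero, exp_le_exp]
  by_contra hcon
  have hm1 : m = -1 := by omega
  obtain ⟨U, rfl⟩ : ∃ U, X = δ * U := ⟨X / δ, by field_simp⟩
  have hU : v U = 1 := by
    rw [map_mul, hD, hm1] at hm
    have h3 : (exp (-1) : ℤᵐ⁰) ≠ 0 := exp_ne_zero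
    calc v U = (exp (-1) * v U) / exp (-1) := by rw [mul_comm, mul_div_assoc, div_self h3, mul_one]
      _ = 1 := by rw [hm, div_self h3]
  have hY : Y ^ 2 = δ ^ 3 * (U * (U ^ 2 + -(3 * U) + 3)) := by rw [h]; ring
  have hY0 : U ^ 2 + -(3 * U) + 3 ≠ 0 := by
    intro h0
    apply hns
    exact ⟨2 * U - 3, by linear_combination -4 * h0⟩
  have hU0 : U ≠ 0 := right_ne_zero_of_mul hX0
  have hcase : v (U ^ 2 + -(3 * U) + 3) = 1 := by
    by_contra hne
    have hlt : v (U ^ 2 + -(3 * U) + 3) < 1 :=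
      lt_of_le_of_ne (vadd (vadd (vpow hU.le 2)
        (by rw [Valuation.map_neg]; exact (vmul h3.le hU.le))) h3.le) hne
    apply hns
    -- `-3 ≡ (2 U - 3)²`
    have h4 : v ((2 * U - 3) ^ 2 - (-3)) < 1 := by
      have e : (2 * U - 3) ^ 2 - (-3) = 4 * (U ^ 2 + -(3 * U) + 3) := by ring
      rw [e]
      exact vmull (by exact_mod_cast vnat v 4) hlt
    have h5 : IsSquare ((2 * U - 3) ^ 2 / (-3)) := by
      apply hH
      have e : (2 * U - 3) ^ 2 / (-3) - 1 = -(((2 * U - 3) ^ 2 - (-3)) / 3) := by ring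
      rw [e, Valuation.map_neg, map_div₀, h3, div_one]
      exact h4
    obtain ⟨z, hz⟩ := h5
    have h5 : v ((2 * U - 3) ^ 2) = 1 := by
      have e : (2 * U - 3) ^ 2 = -3 + ((2 * U - 3) ^ 2 - (-3)) := by ring
      rw [e, v.map_add_eq_of_lt_left, Valuation.map_neg, h3]
      rw [Valuation.map_neg, h3]
      exact h4
    have h6 : 2 * U - 3 ≠ 0 := by
      intro h0
      rw [h0, zero_pow two_ne_zero, map_zero] at h5
      exact zero_ne_one h5
    have hz0 : z ≠ 0 := by
      rintro rfl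
      rw [mul_zero, div_eq_zero_iff] at hz
      rcases hz with h8 | h8
      · exact h6 (pow_eq_zero_iff two_ne_zero |>.1 h8)
      · norm_num at h8
    refine ⟨(2 * U - 3) / z, ?_⟩
    field_simp at hz ⊢
    linear_combination hz
  have h4 : v (Y ^ 2) = exp (2 * (-2) + 1) := by
    rw [hY, map_mul, map_mul, hcase, hU, map_pow, hD, exp_cube]
    simp
  exact ev_odd_val (z := Y) (by
    rintro rfl
    rw [zero_pow two_ne_zero, map_zero] at h4
    exact exp_ne_zero h4.symm) (map_pow v Y 2) h4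

end bad

/-- the form `u² + 3 w²` is anisotropic -/
lemma anisoM (h3 : v (3 : L) = 1) (hH : ∀ x : L, v (x - 1) < 1 → IsSquare x)
    (hns : ¬ IsSquare (-3 : L)) (u w : L) (h0 : u ^ 2 + 3 * w ^ 2 ≠ 0) :
    ∃ m : ℤ, v (u ^ 2 + 3 * w ^ 2) = exp (2 * m) := by
  by_cases hu : u = 0
  · by_cases hw : w = 0
    · simp [hu, hw] at h0
    · obtain ⟨m, hm⟩ := exists_exp v hw
      refine ⟨m, ?_⟩
      rw [hu, zero_pow two_ne_zero, zero_add, map_mul, h3, one_mul, map_pow, hm, exp_sq]
  · by_cases hw : w = 0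
    · obtain ⟨m, hm⟩ := exists_exp v hu
      exact ⟨m, by rw [hw, zero_pow two_ne_zero, mul_zero, add_zero, map_pow, hm, exp_sq]⟩
    · obtain ⟨m, hm⟩ := exists_exp v hu
      obtain ⟨k, hk⟩ := exists_exp v hw
      have e1 : v (u ^ 2) = exp (2 * m) := by rw [map_pow, hm, exp_sq]
      have e2 : v (3 * w ^ 2) = exp (2 * k) := by rw [map_mul, h3, one_mul, map_pow, hk, exp_sq]
      rcases lt_trichotomy m k with hlt | heq | hgt
      · refine ⟨k, ?_⟩
        rw [v.map_add_eq_of_lt_right, e2]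
        rw [e1, e2, exp_lt_exp]
        omega
      · refine ⟨k, ?_⟩
        by_contra hne
        have hlt : v (u ^ 2 + 3 * w ^ 2) < exp (2 * k) := by
          refine lt_of_le_of_ne ((v.map_add _ _).trans ?_) hne
          rw [e1, e2, heq, max_self]
        apply hns
        have h4 : IsSquare ((u / w) ^ 2 / (-3)) := by
          apply hH
          have e : (u / w) ^ 2 / (-3) - 1 = -((u ^ 2 + 3 * w ^ 2) / (3 * w ^ 2)) := by
            field_simp
            ring
          rw [e, Valuation.map_neg, map_div₀, e2]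
          calc v (u ^ 2 + 3 * w ^ 2) / exp (2 * k) < exp (2 * k) / exp (2 * k) := by
                rw [div_eq_mul_inv, div_eq_mul_inv]
                exact mul_lt_mul_of_pos_right hlt (by simp)
            _ = 1 := div_self exp_ne_zero
        obtain ⟨z, hz⟩ := h4
        have hz0 : z ≠ 0 := by
          rintro rfl
          rw [mul_zero, div_eq_zero_iff] at hz
          rcases hz with h8 | h8
          · rw [pow_eq_zero_iff two_ne_zero, div_eq_zero_iff] at h8
            tauto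
          · norm_num at h8
        refine ⟨u / w / z, ?_⟩
        field_simp at hz ⊢
        linear_combination hz
      · refine ⟨m, ?_⟩
        rw [v.map_add_eq_of_lt_left, e1]
        rw [e1, e2, exp_lt_exp]
        omega

/-- the norm form -/
def nfM (δ X : L) : L := X ^ 2 + -3 * δ * X + 3 * δ ^ 2

omit [DecidableEq L] in
lemma nfM_ne (hδ0 : δ ≠ 0) (hns : ¬ IsSquare (-3 : L)) (X : L) : nfM δ X ≠ 0 := by
  intro h0
  unfold nfM at h0
  apply hns
  refine ⟨(2 * X - 3 * δ) / δ, ?_⟩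
  field_simp
  linear_combination -4 * h0

/-- the points whose norm has value divisible by four -/
def G4M (h2 : v (2 : L) = 1) (h3 : v (3 : L) = 1) (hH : ∀ x : L, v (x - 1) < 1 → IsSquare x)
    (hns : ¬ IsSquare (-3 : L)) : AddSubgroup W.toAffine.Point where
  carrier := {P | ∀ X Y h, P = .some X Y h → ∃ k : ℤ, v (nfM δ (X - -δ)) = exp (4 * k)}
  zero_mem' := by
    intro X Y h e
    exact absurd e.symm (Affine.Point.some_ne_zero _)
  neg_mem' := by
    rintro (_ | ⟨X, Y, h⟩) hP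
    · intro X Y h e
      exact absurd e.symm (Affine.Point.some_ne_zero _)
    · intro X' Y' h' e
      obtain ⟨h2, e2⟩ := S.w0.neg_some h
      rw [e2, Affine.Point.some.injEq] at e
      rw [← e.1]
      exact hP X Y h rfl
  add_mem' := by
    rintro (_ | ⟨X₁, Y₁, h₁⟩) (_ | ⟨X₂, Y₂, h₂⟩) hP1 hQ
    · exact hP1
    · exact hQ
    · exact hP1
    · intro X₃ Y₃ h₃ e
      obtain ⟨l, ν, hl⟩ := S.w0.line3 e
      change nfM δ (X₁ - -δ) * nfM δ (X₂ - -δ) * nfM δ (X₃ - -δ) = _ at hl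
      obtain ⟨k1, hk1⟩ := hP1 X₁ Y₁ h₁ rfl
      obtain ⟨k2, hk2⟩ := hQ X₂ Y₂ h₂ rfl
      have h4N : 4 * (ν ^ 2 - -3 * δ * l * ν + 3 * δ ^ 2 * l ^ 2) =
          (2 * ν + 3 * δ * l) ^ 2 + 3 * (δ * l) ^ 2 := by ring
      have hN0 : ν ^ 2 - -3 * δ * l * ν + 3 * δ ^ 2 * l ^ 2 ≠ 0 := by
        intro h0
        rw [h0, zero_pow two_ne_zero] at hl
        exact mul_ne_zero (mul_ne_zero (nfM_ne S.hδ hns _) (nfM_ne S.hδ hns _))
          (nfM_ne S.hδ hns _) hl
      obtain ⟨m, hm⟩ := anisoM h3 hH hns (2 * ν + 3 * δ * l) (δ * l)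
        (by rw [← h4N]; exact mul_ne_zero (by norm_num) hN0)
      have h4 : v (4 : L) = 1 := by
        have e4 : (4 : L) = 2 ^ 2 := by norm_num
        rw [e4, map_pow, h2, one_pow]
      rw [← h4N, map_mul, h4, one_mul] at hm
      obtain ⟨k3, hk3⟩ := exists_exp v (nfM_ne S.hδ hns (X₃ - -δ))
      have h5 := congrArg v hl
      rw [map_mul, map_mul, map_pow, hm, hk1, hk2, hk3, exp_sq, ← exp_add, ← exp_add, exp_inj] at h5
      exact ⟨m - k1 - k2, by rw [hk3, exp_inj]; omega⟩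

section bad

variable (h2 : v (2 : L) = 1) (h3 : v (3 : L) = 1) (hD : v δ = exp (-1))

lemma mem_G4M (hH : ∀ x : L, v (x - 1) < 1 → IsSquare x) (hns : ¬ IsSquare (-3 : L)) {X Y : L}
    (h : W.toAffine.Nonsingular X Y) :
    (.some X Y h : W.toAffine.Point) ∈ G4M S h2 h3 hH hns ↔
      ∃ k : ℤ, v (nfM δ (X - -δ)) = exp (4 * k) := by
  constructor
  · intro h1
    exact h1 X Y h rfl
  · intro h1 X' Y' h' e'
    rw [Affine.Point.some.injEq] at e'
    rw [← e'.1]
    exact h1

include h2 h3 hD in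
lemma crit4M (hH : ∀ x : L, v (x - 1) < 1 → IsSquare x) (hns : ¬ IsSquare (-3 : L)) {X Y : L}
    (hE : Meq δ X Y) : 1 ≤ v X ↔ ∃ k : ℤ, v (nfM δ X) = exp (4 * k) := by
  obtain ⟨l21, l112⟩ := lbadM h3 hD
  have l21' : v (-3 * δ) ≤ exp (-1) := by
    rw [map_mul, hD, Valuation.map_neg, h3, one_mul]
  have l112' : v (3 * δ ^ 2) < 1 := by
    rw [l112, ← exp_zero, exp_lt_exp]; norm_num
  constructor
  · intro h1
    have hX0 : X ≠ 0 := by
      rintro rfl
      rw [map_zero] at h1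
      exact absurd h1 (by simp)
    obtain ⟨z, hz⟩ := big_sqM h3 hD hH hE h1
    have hz0 : z ≠ 0 := by
      rintro rfl
      rw [mul_zero] at hz
      exact hX0 hz
    obtain ⟨k, hk⟩ := exists_exp v hz0
    have hvX : v X = exp (2 * k) := by rw [hz, ← pow_two, map_pow, hk, exp_sq]
    refine ⟨k, ?_⟩
    have hX2 : v (X ^ 2) = exp (4 * k) := by
      rw [map_pow, hvX, exp_sq]; congr 1; ring
    have hk0 : 0 ≤ k := by
      rw [hvX, ← exp_zero, exp_le_exp] at h1; omega
    have e : nfM δ X = X ^ 2 + (-3 * δ * X + 3 * δ ^ 2) := by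
      unfold nfM; ring
    rw [e, v.map_add_eq_of_lt_left, hX2]
    rw [hX2]
    apply v.map_add_lt
    · rw [map_mul, hvX]
      calc v (-3 * δ) * exp (2 * k) ≤ exp (-1) * exp (2 * k) := by gcongr
        _ = exp (-1 + 2 * k) := (exp_add _ _).symm
        _ < exp (4 * k) := by rw [exp_lt_exp]; omega
    · rw [l112, exp_lt_exp]; omega
  · rintro ⟨k, hk⟩
    by_contra hlt
    push Not at hlt
    have h5 : v (nfM δ X) = exp (-2) := by
      by_cases hX0 : X = 0
      · rw [hX0]
        unfold nfM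
        rw [← l112]
        congr 1
        ring
      · have h6 := small_valM h2 h3 hD hH hns hX0 hE hlt
        obtain ⟨m, hm⟩ := exists_exp v hX0
        rw [map_div₀, l112, hm, ← exp_sub, ← exp_zero, exp_le_exp] at h6
        unfold nfM
        rw [v.map_add_eq_of_lt_right, l112]
        rw [l112]
        apply v.map_add_lt
        · rw [map_pow, hm, exp_sq, exp_lt_exp]; omega
        · rw [map_mul, hm]
          calc v (-3 * δ) * exp m ≤ exp (-1) * exp m := by gcongr
            _ = exp (-1 + m) := (exp_add _ _).symm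
            _ < exp (-2) := by rw [exp_lt_exp]; omega
    rw [h5, exp_inj] at hk
    omega

include S h2 h3 hD in
/-- index two at a place above `D` where `-3` is not a square -/
theorem idxM_two (hH : ∀ x : L, v (x - 1) < 1 → IsSquare x) (hns : ¬ IsSquare (-3 : L)) :
    (AddSubgroup.closure {P : W.toAffine.Point | ∀ x y h, P = Affine.Point.some x y h →
      1 < v x ∨ v (W.a₁ * y - (3 * x ^ 2 + 2 * W.a₂ * x + W.a₄)) = 1 ∨
      v (2 * y + W.a₁ * x + W.a₃) = 1}).index = 2 := by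
  obtain ⟨l21, l112⟩ := lbadM h3 hD
  rw [idx_ofM S (G4M S h2 h3 hH hns) (fun x y h => ?_)]
  · rw [AddSubgroup.index_eq_two_iff]
    refine ⟨Te S.w0, fun P => ?_⟩
    have hT : Te S.w0 ∉ G4M S h2 h3 hH hns := by
      unfold Te
      rw [mem_G4M]
      rintro ⟨k, hk⟩
      unfold nfM at hk
      rw [sub_self, zero_pow two_ne_zero, mul_zero, zero_add, zero_add, l112, exp_inj] at hk
      omega
    by_cases hP : P ∈ G4M S h2 h3 hH hns
    · refine Or.inr ⟨hP, fun h3 => hT ?_⟩
      have := (G4M S h2 _ hH hns).sub_mem h3 hP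
      rwa [add_sub_cancel_left] at this
    · refine Or.inl ⟨?_, hP⟩
      rcases P with _ | ⟨X, Y, h⟩
      · exact absurd (G4M S h2 h3 hH hns).zero_mem hP
      by_cases hX : X = -δ
      · rw [S.w0.eq_T hX h, S.w0.T_add_T]
        exact (G4M S h2 h3 hH hns).zero_mem
      · obtain ⟨Y', h', e'⟩ := S.w0.add_T hX h
        have hX' : X - -δ ≠ 0 := sub_ne_zero.2 hX
        have eX : ∀ z : L, z - -δ = z + δ := fun z => sub_neg_eq_add z δ
        rw [e', mem_G4M, eX]
        rw [mem_G4M, eX, ← crit4M h2 h3 hD hH hns (S.eeq h.1), not_le] at hP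
        rw [← crit4M h2 h3 hD hH hns (S.eeq h'.1)]
        have e3 : -δ + 3 * δ ^ 2 / (X - -δ) + δ = 3 * δ ^ 2 / (X + δ) := by
          rw [eX]; ring
        rw [e3]
        rw [eX] at hX'
        exact small_valM h2 h3 hD hH hns hX' (S.eeq h.1) hP
  · rw [sing_redM (dle hD) h2 l21 (S.eqn h.1), mem_G4M, sub_neg_eq_add]
    exact crit4M h2 h3 hD hH hns (S.eeq h.1)

omit [DecidableEq L] [CharZero L] in
/-- the values of the roots -/
lemma root_valM {w : L} (hw : w ^ 2 + w + 1 = 0) (h3 : v (3 : L) = 1) :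
    v (rA δ w) = v δ ∧ v (rB δ w) = v δ := by
  have h2 : v (2 : L) ≤ 1 := by exact_mod_cast vnat v 2
  have h1 : v (1 : L) ≤ 1 := by rw [map_one]
  have ia : v w ≤ 1 := by
    by_contra hc
    push Not at hc
    have h0 : 0 < v w := zero_lt_one.trans hc
    have h4 : v (w ^ 2) ≤ v w := by
      have e : w ^ 2 = -w + -1 := by linear_combination hw
      rw [e]
      refine (v.map_add _ _).trans (max_le ?_ ?_)
      · rw [Valuation.map_neg]
      · rw [Valuation.map_neg, map_one]; exact hc.le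
    rw [map_pow, pow_two] at h4
    have h5 : v w * 1 < v w * v w := by gcongr
    rw [mul_one] at h5
    exact absurd h4 (not_le.2 h5)
  have i1 : v (1 - w) ≤ 1 := vsub h1 ia
  have i2 : v (2 + w) ≤ 1 := vadd h2 ia
  have h5 : v (1 - w) * v (2 + w) = 1 := by
    rw [← map_mul]
    have e : (1 - w) * (2 + w) = 3 := by linear_combination -hw
    rw [e, h3]
  have u1 : v (1 - w) = 1 := by
    refine le_antisymm i1 ?_
    by_contra hc
    push Not at hc
    have : v (1 - w) * v (2 + w) < 1 := mul_lt_one_of_lt_of_le hc i2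
    rw [h5] at this
    exact lt_irrefl _ this
  have u2 : v (2 + w) = 1 := by rwa [u1, one_mul] at h5
  unfold rA rB
  rw [map_mul, map_mul, u1, u2, mul_one]
  exact ⟨rfl, rfl⟩

include S h2 h3 hD in
/-- index four at a place above `D` where `-3` is a square -/
theorem idxM_four {a : L} (ha : a ^ 2 + a + 1 = 0) :
    (AddSubgroup.closure {P : W.toAffine.Point | ∀ x y h, P = Affine.Point.some x y h →
      1 < v x ∨ v (W.a₁ * y - (3 * x ^ 2 + 2 * W.a₂ * x + W.a₄)) = 1 ∨
      v (2 * y + W.a₁ * x + W.a₃) = 1}).index = 4 := by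
  obtain ⟨l21, l112⟩ := lbadM h3 hD
  obtain ⟨vA, vB⟩ := root_valM (δ := δ) (v := v) ha h3
  rw [hD] at vA vB
  have hA0 : rA δ a ≠ 0 := rA_ne ha S.hδ
  have hoA : ¬ Evo v (rA δ a) := not_evo (k := -1) (by rw [vA]; rfl)
  have hoA' : ¬ Evo v (-rA δ a) := not_evo (k := -1) (by rw [Valuation.map_neg, vA]; rfl)
  have hne : -δ ≠ -δ + rA δ a := by
    intro h
    exact hA0 (by linear_combination -h)
  -- the criterion
  have hcrit : ∀ {x y : L}, W.toAffine.Nonsingular x y →
      (1 ≤ v (x + δ) ↔ (Evo v (dv (-δ + rA δ a) (rA δ a * (rA δ a - rB δ a)) x) ∧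
        Evo v (dv (-δ) (3 * δ ^ 2) x))) := by
    intro x y h
    have hE := S.eeq h.1
    by_cases hX : x = -δ
    · rw [hX, dv_ne hne, neg_add_cancel, map_zero]
      have e : -δ - (-δ + rA δ a) = -rA δ a := by ring
      rw [e]
      exact ⟨fun h => absurd h (by simp), fun h => absurd h.1 hoA'⟩
    by_cases hXA : x = -δ + rA δ a
    · have e : x - -δ = rA δ a := by rw [hXA]; ring
      have e' : x + δ = rA δ a := by rw [hXA]; ring
      rw [dv_ne hX, e, e', vA]
      refine ⟨fun h => ?_, fun h => absurd h.2 hoA⟩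
      rw [← exp_zero, exp_le_exp] at h
      omega
    rw [dv_ne hX, dv_ne hXA]
    have hX' : x + δ ≠ 0 := by
      intro h0
      exact hX (by linear_combination h0)
    have e0 : x - (-δ + rA δ a) = (x + δ) - rA δ a := by ring
    have e00 : x - -δ = x + δ := by ring
    rw [e0, e00]
    have hE' := hE.fac ha
    set X := x + δ with hXd
    constructor
    · intro h1
      have hlt : (exp (-1) : ℤᵐ⁰) < v X := by
        refine lt_of_lt_of_le ?_ h1
        rw [← exp_zero, exp_lt_exp]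
        norm_num
      have e1 : v (X - rA δ a) = v X :=
        Valuation.map_sub_eq_of_lt_left v (by rw [vA]; exact hlt)
      have e2 : v (X - rB δ a) = v X :=
        Valuation.map_sub_eq_of_lt_left v (by rw [vB]; exact hlt)
      obtain ⟨m, hm⟩ := exists_exp v hX'
      have e3 : v (y ^ 2) = exp (3 * m) := by
        rw [hE', map_mul, map_mul, e1, e2, hm, ← exp_add, ← exp_add]
        congr 1
        ring
      have hY0 : y ≠ 0 := by
        rintro rfl
        rw [zero_pow two_ne_zero, map_zero] at e3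
        exact exp_ne_zero e3.symm
      obtain ⟨l, hl⟩ := exists_exp v hY0
      rw [map_pow, hl, exp_sq, exp_inj] at e3
      have : Evo v X := ⟨m / 2, by rw [hm, exp_inj]; omega⟩
      refine ⟨?_, this⟩
      obtain ⟨k, hk⟩ := this
      exact ⟨k, by rw [e1, hk]⟩
    · rintro ⟨⟨k, hk⟩, ⟨l, hl⟩⟩
      by_contra hlt
      push Not at hlt
      rw [hl, ← exp_zero, exp_lt_exp] at hlt
      have e2 : v (X - rA δ a) = exp (-1) := by
        rw [Valuation.map_sub_eq_of_lt_right v, vA]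
        rw [vA, hl, exp_lt_exp]
        omega
      rw [e2, exp_inj] at hk
      omega
  set H1 := GP S.w0 (mq_evo v) with hH1
  set H2 := GP (S.w1 ha) (mq_evo v) with hH2
  have hidx1 : H1.index = 2 := by
    refine GP_index S.w0 (mq_evo v) (evo_dich v) (Q := Te (S.w1 ha)) ?_
    unfold Te
    rw [mem_GP, dv_ne hne.symm]
    have e : -δ + rA δ a - -δ = rA δ a := by ring
    rw [e]
    exact hoA
  have hidx2 : H2.relIndex H1 = 2 := by
    show (H2.addSubgroupOf H1).index = 2
    rw [AddSubgroup.index_eq_two_iff]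
    have hT1 : Te S.w0 ∈ H1 := by
      unfold Te
      rw [hH1, mem_GP, dv_T]
      exact ⟨-1, by rw [l112]; rfl⟩
    have hT2 : Te S.w0 ∉ H2 := by
      unfold Te
      rw [hH2, mem_GP, dv_ne hne]
      have e : -δ - (-δ + rA δ a) = -rA δ a := by ring
      rw [e]
      exact hoA'
    refine ⟨⟨Te S.w0, hT1⟩, fun P => ?_⟩
    rw [AddSubgroup.mem_addSubgroupOf, AddSubgroup.mem_addSubgroupOf]
    show Xor ((P : W.toAffine.Point) + Te S.w0 ∈ H2) ((P : W.toAffine.Point) ∈ H2)
    by_cases hP : (P : W.toAffine.Point) ∈ H2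
    · refine Or.inr ⟨hP, fun h3 => hT2 ?_⟩
      have := H2.sub_mem h3 hP
      rwa [add_sub_cancel_left] at this
    · refine Or.inl ⟨?_, hP⟩
      have hGI : H2.index = 2 := GP_index (S.w1 ha) (mq_evo v) (evo_dich v) hT2
      exact (AddSubgroup.add_mem_iff_of_index_two hGI).2 ⟨fun h => absurd h hP, fun h => absurd h hT2⟩
  have hidx : (H2 ⊓ H1).index = 4 := by
    have h3 := AddSubgroup.relIndex_mul_index (H := H2 ⊓ H1) (K := H1) inf_le_right
    rw [AddSubgroup.inf_relIndex_right, hidx2, hidx1] at h3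
    omega
  rw [idx_ofM S (H2 ⊓ H1) (fun x y h => ?_), hidx]
  rw [sing_redM (dle hD) h2 l21 (S.eqn h.1), AddSubgroup.mem_inf, hH1, hH2, mem_GP, mem_GP]
  exact hcrit h

end bad

end val2

end Pool.Agent.L0h86.F1
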