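import Pool.Agent.L0h23.EV.Per

/-!
# The real period of the curves `y² = x³ + D³`
-/

set_option autoImplicit false
set_option linter.unusedSectionVars false

namespace Pool.Agent.L0h86.F1

open Pool.Agent.L0h23.EV
open MeasureTheory

/-- the cubic polynomial `4 x³ + b₂ x² + 2 b₄ x + b₆` of the equation `y² = x³ + D³` -/
noncomputable def psM (D : ℕ) (x : ℝ) : ℝ := 4 * x ^ 3 + 4 * (D : ℝ) ^ 3

lemma psM_eq (D : ℕ) (x : ℝ) : psM D (D * x) = (D : ℝ) ^ 3 * psM 1 x := by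
  unfold psM
  push_cast
  ring

/-- **the real period integral of the twist** -/
theorem real_periodM {D : ℕ} (hD : 0 < D) :
    (∫ x in {x : ℝ | 0 < psM D x}, 2 / Real.sqrt (psM D x)) =
      (∫ x in {x : ℝ | 0 < psM 1 x}, 2 / Real.sqrt (psM 1 x)) / Real.sqrt D := by
  rw [int_all (psM D), int_all (psM 1)]
  have hD0 : (0 : ℝ) < D := by exact_mod_cast hD
  have hs0 : 0 < Real.sqrt D := Real.sqrt_pos.2 hD0
  have hss : Real.sqrt D * Real.sqrt D = D := Real.mul_self_sqrt hD0.le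
  have e2 := Measure.integral_comp_mul_left (fun y : ℝ => 2 / Real.sqrt (psM D y)) (D : ℝ)
  have e3 : (∫ x : ℝ, (fun y : ℝ => 2 / Real.sqrt (psM D y)) ((D : ℝ) * x)) =
      ∫ x : ℝ, 1 / ((D : ℝ) * Real.sqrt D) * (2 / Real.sqrt (psM 1 x)) := by
    congr 1
    funext x
    beta_reduce
    have e5 : (D : ℝ) ^ 3 = (D * Real.sqrt D) ^ 2 := by
      rw [mul_pow, pow_two (Real.sqrt _), hss]; ring
    rw [psM_eq, e5, Real.sqrt_mul (by positivity), Real.sqrt_sq (by positivity)]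
    by_cases h5 : Real.sqrt (psM 1 x) = 0
    · rw [h5]
      simp
    · field_simp
  rw [e3, integral_const_mul] at e2
  have e5 : |(D : ℝ)⁻¹| = (D : ℝ)⁻¹ := abs_of_pos (by positivity)
  rw [e5, smul_eq_mul] at e2
  have e6 : (∫ x : ℝ, 2 / Real.sqrt (psM D x)) =
      (D : ℝ) * (1 / ((D : ℝ) * Real.sqrt D) * ∫ x : ℝ, 2 / Real.sqrt (psM 1 x)) := by
    rw [e2]
    field_simp
  rw [e6]
  field_simp

end Pool.Agent.L0h86.F1
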