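import Pool.Agent.L0h86.F1.Loc
import Pool.Agent.L0h23.EV.TamB

/-!
# The index at a place above two, for `y² = x³ + δ³`, `δ ≡ 1 mod 4`
-/

set_option autoImplicit false
set_option linter.unusedSectionVars false

namespace Pool.Agent.L0h86.F1

open Pool.Agent.Y698 Pool.Agent.L0h23.EV WeierstrassCurve WithZero

section tri

variable {L : Type} [Field L]

open Classical in
/-- the value of `y - c` -/
noncomputable def dz (c y : L) : L := if y = c then (2 * c) ^ 2 else y - c

lemma dz_c (c : L) : dz c c = (2 * c) ^ 2 := by unfold dz; rw [if_pos rfl]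

lemma dz_ne {c y : L} (h : y ≠ c) : dz c y = y - c := by unfold dz; rw [if_neg h]

lemma dz_ne_zero {c : L} (h2 : 2 * c ≠ 0) (y : L) : dz c y ≠ 0 := by
  by_cases h : y = c
  · rw [h, dz_c]; exact pow_ne_zero 2 h2
  · rw [dz_ne h]; exact sub_ne_zero.2 h

/-- three points of a line -/
lemma tri {c l m x₁ x₂ x₃ : L} (h2 : 2 * c ≠ 0) (s1 : x₁ + x₂ + x₃ = l ^ 2)
    (s2 : x₁ * x₂ + x₁ * x₃ + x₂ * x₃ = -(2 * l * m)) (s3 : x₁ * x₂ * x₃ = m ^ 2 - c ^ 2) :
    ∃ ν : L, ν ≠ 0 ∧ dz c (l * x₁ + m) * dz c (l * x₂ + m) * dz c (l * x₃ + m) = ν ^ 3 := by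
  have hprod : (l * x₁ + m - c) * (l * x₂ + m - c) * (l * x₃ + m - c) = (m - c) ^ 3 := by
    linear_combination (l ^ 2 * (m - c)) * s2 + l ^ 3 * s3 + l * (m - c) ^ 2 * s1
  by_cases hm : m = c
  · subst hm
    by_cases hl : l = 0
    · subst hl
      refine ⟨(2 * m) ^ 2, pow_ne_zero 2 h2, ?_⟩
      simp only [zero_mul, zero_add]
      rw [dz_c]
      ring
    · have hne : -(2 * l * m) ≠ 0 := by
        have : -(2 * l * m) = -(l * (2 * m)) := by ring
        rw [this]
        exact neg_ne_zero.2 (mul_ne_zero hl h2)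
      have hne2 : -(2 * l * m) ≠ 0 := hne
      rw [sub_self] at s3
      refine ⟨-(2 * l * m), hne, ?_⟩
      have key : ∀ x : L, l * x + m = m ↔ x = 0 := by
        intro x
        constructor
        · intro h
          have : l * x = 0 := by linear_combination h
          rcases mul_eq_zero.1 this with h | h
          · exact absurd h hl
          · exact h
        · rintro rfl
          ring
      rcases mul_eq_zero.1 s3 with h | h
      · rcases mul_eq_zero.1 h with h | h
        · subst h
          have n2 : x₂ ≠ 0 := by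
            rintro rfl
            apply hne2
            rw [← s2]; ring
          have n3 : x₃ ≠ 0 := by
            rintro rfl
            apply hne2
            rw [← s2]; ring
          rw [dz_ne (fun h => n2 ((key _).1 h)), dz_ne (fun h => n3 ((key _).1 h))]
          have e : l * 0 + m = m := by ring
          rw [e, dz_c]
          have s2' : x₂ * x₃ = -(2 * l * m) := by linear_combination s2
          linear_combination (4 * m ^ 2 * l ^ 2) * s2'
        · subst h
          have n2 : x₁ ≠ 0 := by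
            rintro rfl
            apply hne2
            rw [← s2]; ring
          have n3 : x₃ ≠ 0 := by
            rintro rfl
            apply hne2
            rw [← s2]; ring
          rw [dz_ne (fun h => n2 ((key _).1 h)), dz_ne (fun h => n3 ((key _).1 h))]
          have e : l * 0 + m = m := by ring
          rw [e, dz_c]
          have s2' : x₁ * x₃ = -(2 * l * m) := by linear_combination s2
          linear_combination (4 * m ^ 2 * l ^ 2) * s2'
      · subst h
        have n2 : x₁ ≠ 0 := by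
          rintro rfl
          apply hne2
          rw [← s2]; ring
        have n3 : x₂ ≠ 0 := by
          rintro rfl
          apply hne2
          rw [← s2]; ring
        rw [dz_ne (fun h => n2 ((key _).1 h)), dz_ne (fun h => n3 ((key _).1 h))]
        have e : l * 0 + m = m := by ring
        rw [e, dz_c]
        have s2' : x₁ * x₂ = -(2 * l * m) := by linear_combination s2
        linear_combination (4 * m ^ 2 * l ^ 2) * s2'
  · have hmc : m - c ≠ 0 := sub_ne_zero.2 hm
    have h0 : (l * x₁ + m - c) * (l * x₂ + m - c) * (l * x₃ + m - c) ≠ 0 := by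
      rw [hprod]; exact pow_ne_zero 3 hmc
    have n1 : l * x₁ + m ≠ c := by
      intro h
      apply h0
      rw [h]; ring
    have n2 : l * x₂ + m ≠ c := by
      intro h
      apply h0
      rw [h]; ring
    have n3 : l * x₃ + m ≠ c := by
      intro h
      apply h0
      rw [h]; ring
    exact ⟨m - c, hmc, by rw [dz_ne n1, dz_ne n2, dz_ne n3, hprod]⟩

/-- opposite points -/
lemma opp {c x y : L} (h2 : 2 * c ≠ 0) (h : y ^ 2 = x ^ 3 + c ^ 2) :
    ∃ ν : L, ν ≠ 0 ∧ dz c y * dz c (-y) = ν ^ 3 := by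
  have hcc : -c ≠ c := by
    intro h0
    exact h2 (by linear_combination -h0)
  by_cases h1 : y = c
  · subst h1
    refine ⟨-(2 * y), neg_ne_zero.2 h2, ?_⟩
    rw [dz_c, dz_ne hcc]
    ring
  · by_cases h3 : y = -c
    · subst h3
      refine ⟨-(2 * c), neg_ne_zero.2 h2, ?_⟩
      rw [neg_neg, dz_c, dz_ne hcc]
      ring
    · have h4 : -y ≠ c := by
        intro h0
        exact h3 (by rw [← h0]; ring)
      refine ⟨-x, ?_, ?_⟩
      · rw [neg_ne_zero]
        rintro rfl
        have : (y - c) * (y + c) = 0 := by linear_combination h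
        rcases mul_eq_zero.1 this with h5 | h5
        · exact h1 (sub_eq_zero.1 h5)
        · exact h3 (eq_neg_of_add_eq_zero_left h5)
      · rw [dz_ne h1, dz_ne h4]
        linear_combination -h

variable [CharZero L] {W : WeierstrassCurve L} [DecidableEq L]

/-- the line through two points -/
theorem line_c {δ : L} (S : VM W δ) {c : L} (hc : c ^ 2 = δ ^ 3) {X₁ Y₁ X₂ Y₂ X₃ Y₃ : L}
    {h₁ : W.toAffine.Nonsingular X₁ Y₁}
    {h₂ : W.toAffine.Nonsingular X₂ Y₂} {h₃ : W.toAffine.Nonsingular X₃ Y₃}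
    (h : (.some X₁ Y₁ h₁ : W.toAffine.Point) + .some X₂ Y₂ h₂ = .some X₃ Y₃ h₃) :
    ∃ l m : L, Y₁ = l * X₁ + m ∧ Y₂ = l * X₂ + m ∧ -Y₃ = l * X₃ + m ∧
      X₁ + X₂ + X₃ = l ^ 2 ∧ X₁ * X₂ + X₁ * X₃ + X₂ * X₃ = -(2 * l * m) ∧
      X₁ * X₂ * X₃ = m ^ 2 - c ^ 2 := by
  have hxy : ¬ (X₁ = X₂ ∧ Y₁ = W.toAffine.negY X₂ Y₂) := by
    rintro ⟨e1, e2⟩
    rw [Affine.Point.add_of_Y_eq e1 e2] at h
    exact Affine.Point.some_ne_zero _ h.symm
  rw [Affine.Point.add_some hxy, Affine.Point.some.injEq] at h
  obtain ⟨hX, hY⟩ := h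
  have e1 := S.eqn h₁.1
  have e2 := S.eqn h₂.1
  rw [← hc] at e1 e2
  set l := W.toAffine.slope X₁ X₂ Y₁ Y₂ with hl
  have hX' : X₃ = l ^ 2 - X₁ - X₂ := by
    rw [← hX]
    simp only [Affine.addX, S.h1, S.h2]
    ring
  obtain ⟨m, hm⟩ : ∃ m, m = Y₁ - l * X₁ := ⟨_, rfl⟩
  have hY1 : Y₁ = l * X₁ + m := by rw [hm]; ring
  have hY3 : -Y₃ = l * X₃ + m := by
    rw [← hY, hX', hm]
    simp only [Affine.addY, Affine.negAddY, Affine.negY, Affine.addX, S.h1, S.h2, S.h3]
    ring
  by_cases hx : X₁ = X₂
  · have hy : Y₁ ≠ W.toAffine.negY X₂ Y₂ := fun hc => hxy ⟨hx, hc⟩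
    have hyy : Y₁ = Y₂ := by
      rcases Affine.Y_eq_of_X_eq h₁.1 h₂.1 hx with hh | hh
      · exact hh
      · exact absurd hh hy
    have hneg : W.toAffine.negY X₁ Y₁ = -Y₁ := by
      simp only [Affine.negY, S.h1, S.h3]; ring
    have hd : 2 * Y₁ ≠ 0 := by
      intro h0
      apply hy
      rw [← hx, ← hyy, hneg]
      linear_combination h0
    have hs : l * (2 * Y₁) = 3 * X₁ ^ 2 := by
      rw [hl, Affine.slope_of_Y_ne hx hy, hneg, S.h1, S.h2, S.h4]
      have hd' : Y₁ - -Y₁ ≠ 0 := by
        intro h0; apply hd; linear_combination h0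
      rw [div_mul_eq_mul_div, div_eq_iff hd']
      ring
    refine ⟨l, m, hY1, by rw [← hyy, ← hx]; exact hY1, hY3, by rw [hX']; ring, ?_, ?_⟩
    · rw [hX', ← hx]
      rw [hY1] at hs
      linear_combination hs
    · rw [hX', ← hx]
      rw [hY1] at hs e1
      linear_combination -e1 + X₁ * hs
  · have hx' : X₁ - X₂ ≠ 0 := sub_ne_zero.2 hx
    have hs : l * (X₁ - X₂) = Y₁ - Y₂ := by
      rw [hl, Affine.slope_of_X_ne hx]
      field_simp
    have hY2 : Y₂ = l * X₂ + m := by rw [hm]; linear_combination hs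
    rw [hY1] at e1
    rw [hY2] at e2
    refine ⟨l, m, hY1, hY2, hY3, by rw [hX']; ring, ?_, ?_⟩
    · rw [hX']
      apply mul_left_cancel₀ hx'
      linear_combination e1 - e2
    · rw [hX']
      apply mul_left_cancel₀ hx'
      linear_combination X₂ * e1 - X₁ * e2

end tri

section hom

variable {L : Type} [Field L] [CharZero L] {W : WeierstrassCurve L} [DecidableEq L] {δ : L}
  (v : Valuation L ℤᵐ⁰)

/-- the value modulo three -/
noncomputable def lg3 (z : L) : ZMod 3 := ((log (v z) : ℤ) : ZMod 3)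

omit [CharZero L] [DecidableEq L] in
lemma lg3_mul {x y : L} (hx : x ≠ 0) (hy : y ≠ 0) : lg3 v (x * y) = lg3 v x + lg3 v y := by
  unfold lg3
  rw [map_mul, log_mul ((v.ne_zero_iff).2 hx) ((v.ne_zero_iff).2 hy)]
  push_cast
  rfl

omit [CharZero L] [DecidableEq L] in
lemma lg3_cube {x : L} (hx : x ≠ 0) : lg3 v (x ^ 3) = 0 := by
  have e : x ^ 3 = x * x * x := by ring
  rw [e, lg3_mul v (mul_ne_zero hx hx) hx, lg3_mul v hx hx]
  generalize lg3 v x = t
  revert t
  decide

omit [CharZero L] [DecidableEq L] in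
lemma lg3_exp {x : L} {m : ℤ} (h : v x = exp m) : lg3 v x = ((m : ℤ) : ZMod 3) := by
  unfold lg3
  rw [h, log_exp]

/-- the map on points -/
noncomputable def ff (c : L) : W.toAffine.Point → ZMod 3
  | 0 => 0
  | .some _ y _ => lg3 v (dz c y)

/-- the homomorphism -/
noncomputable def fh (S : VM W δ) {c : L} (hc : c ^ 2 = δ ^ 3) : W.toAffine.Point →+ ZMod 3 where
  toFun := ff v c
  map_zero' := rfl
  map_add' := by
    have hc0 : c ≠ 0 := by
      rintro rfl
      rw [zero_pow two_ne_zero] at hc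
      exact pow_ne_zero 3 S.hδ hc.symm
    have h2c : 2 * c ≠ 0 := mul_ne_zero two_ne_zero hc0
    have hopp : ∀ x y : L, W.toAffine.Equation x y → lg3 v (dz c y) + lg3 v (dz c (-y)) = 0 := by
      intro x y h
      obtain ⟨ν, hν0, hν⟩ := opp (x := x) (y := y) h2c (by rw [hc]; exact S.eqn h)
      rw [← lg3_mul v (dz_ne_zero h2c _) (dz_ne_zero h2c _), hν, lg3_cube v hν0]
    rintro (_ | ⟨X₁, Y₁, h₁⟩) (_ | ⟨X₂, Y₂, h₂⟩)
    · rfl
    · show ff v c (0 + _) = 0 + _
      rw [zero_add, zero_add]
    · show ff v c (_ + 0) = _ + 0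
      rw [add_zero, add_zero]
    · rcases hsum : (.some X₁ Y₁ h₁ : W.toAffine.Point) + .some X₂ Y₂ h₂ with _ | ⟨X₃, Y₃, h₃⟩
      · have h3 : (.some X₁ Y₁ h₁ : W.toAffine.Point) = -.some X₂ Y₂ h₂ :=
          eq_neg_of_add_eq_zero_left hsum
        obtain ⟨h2', e2⟩ := S.w0.neg_some h₂
        rw [e2, Affine.Point.some.injEq] at h3
        rw [hsum]
        show (0 : ZMod 3) = lg3 v (dz c Y₁) + lg3 v (dz c Y₂)
        rw [h3.2, add_comm]
        exact (hopp _ _ h₂.1).symm
      · obtain ⟨l, m, k1, k2, k3, s1, s2, s3⟩ := line_c S hc hsum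
        obtain ⟨ν, hν0, hν⟩ := tri h2c s1 s2 s3
        rw [← k1, ← k2, ← k3] at hν
        have h4 := lg3_cube v hν0
        rw [← hν, lg3_mul v (mul_ne_zero (dz_ne_zero h2c _) (dz_ne_zero h2c _)) (dz_ne_zero h2c _),
          lg3_mul v (dz_ne_zero h2c _) (dz_ne_zero h2c _)] at h4
        have h5 := hopp _ _ h₃.1
        rw [hsum]
        show lg3 v (dz c Y₃) = lg3 v (dz c Y₁) + lg3 v (dz c Y₂)
        linear_combination h5 - h4

lemma mem_fh (S : VM W δ) {c : L} (hc : c ^ 2 = δ ^ 3) {X Y : L}
    (h : W.toAffine.Nonsingular X Y) :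
    (.some X Y h : W.toAffine.Point) ∈ (fh v S hc).ker ↔ lg3 v (dz c Y) = 0 := by
  rw [AddMonoidHom.mem_ker]
  exact Iff.rfl

end hom

section two

variable {L : Type} [Field L] [CharZero L] {W : WeierstrassCurve L} [DecidableEq L] {δ : L}
  {v : Valuation L ℤᵐ⁰}

/-- the points with nonsingular reduction at two -/
theorem sing_two (h2 : v (2 : L) = exp (-1)) (hD : v δ = 1) {x y : L}
    (h : y ^ 2 = x ^ 3 + δ ^ 3) : NM v x y ↔ 1 ≤ v x := by
  have l2 : v (2 : L) < 1 := by rw [h2, ← exp_zero, exp_lt_exp]; norm_num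
  have h3 : v (3 : L) = 1 := by exact_mod_cast v_oddn (v := v) h2 (n := 3) (by norm_num)
  rw [NM_iff]
  constructor
  · rintro (hc | hc | hc)
    · exact hc.le
    · rw [map_mul, h3, one_mul, map_pow] at hc
      exact ((pow_eq_one_iff_of_nonneg zero_le two_ne_zero).1 hc).ge
    · by_contra h1
      push Not at h1
      have hy := y_intM hD.le h h1.le
      have l3 : v (2 * y) < 1 := vmulr l2 hy
      rw [hc] at l3
      exact lt_irrefl _ l3
  · intro h1
    rcases h1.lt_or_eq with h5 | h5
    · exact Or.inl h5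
    · right; left
      rw [map_mul, h3, map_pow, ← h5, one_pow, one_mul]

/-- the squares of the units are congruent to one modulo eight -/
lemma sq_mod8 (h2 : v (2 : L) = exp (-1)) (hres : ∀ x : L, v x ≤ 1 → v (x ^ 2 - x) ≤ exp (-1))
    {u : L} (hu : v u = 1) : v (u ^ 2 - 1) ≤ exp (-3) := by
  have h1 : v (u - 1) ≤ exp (-1) := by
    have h := hres u hu.le
    have e : u ^ 2 - u = u * (u - 1) := by ring
    rw [e, map_mul, hu, one_mul] at h
    exact h
  have h20 : (2 : L) ≠ 0 := two_ne_zero
  obtain ⟨t, ht⟩ : ∃ t, u = 1 + 2 * t := ⟨(u - 1) / 2, by field_simp; ring⟩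
  have hvt : v t ≤ 1 := by
    have e : u - 1 = 2 * t := by rw [ht]; ring
    rw [e, map_mul, h2] at h1
    by_contra hc
    push Not at hc
    have : exp (-1) * 1 < exp (-1) * v t := by
      exact mul_lt_mul_of_pos_left hc (by simp)
    rw [mul_one] at this
    exact absurd h1 (not_le.2 this)
  have h3 := hres (-t) (by rw [Valuation.map_neg]; exact hvt)
  have e : u ^ 2 - 1 = 2 * 2 * ((-t) ^ 2 - (-t)) := by rw [ht]; ring
  rw [e, map_mul, map_mul, h2]
  calc exp (-1) * exp (-1) * v ((-t) ^ 2 - -t) ≤ exp (-1) * exp (-1) * exp (-1) :=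
        mul_le_mul' le_rfl h3
    _ = exp (-3) := by rw [← exp_add, ← exp_add]; rfl

lemma small_le {x : L} (hx : v x < 1) : v x ≤ exp (-1) := by
  by_cases h0 : v x = 0
  · rw [h0]; exact zero_le
  · obtain ⟨k, hk⟩ : ∃ k : ℤ, v x = exp k := ⟨log _, (exp_log h0).symm⟩
    rw [hk] at hx ⊢
    rw [← exp_zero, exp_lt_exp] at hx
    rw [exp_le_exp]
    omega

/-- index one at a place above two, `δ ≡ 5 mod 8` -/
theorem idxM_p2one (S : VM W δ) (h2 : v (2 : L) = exp (-1))
    (hres : ∀ x : L, v x ≤ 1 → v (x ^ 2 - x) ≤ exp (-1)) (hD : v (δ - 5) ≤ exp (-3)) :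
    (AddSubgroup.closure {P : W.toAffine.Point | ∀ x y h, P = Affine.Point.some x y h →
      1 < v x ∨ v (W.a₁ * y - (3 * x ^ 2 + 2 * W.a₂ * x + W.a₄)) = 1 ∨
      v (2 * y + W.a₁ * x + W.a₃) = 1}).index = 1 := by
  have h5 : v (5 : L) = 1 := by exact_mod_cast v_oddn (v := v) h2 (n := 5) (by norm_num)
  have hlt : (exp (-3) : ℤᵐ⁰) < 1 := by rw [← exp_zero, exp_lt_exp]; norm_num
  have hD1 : v δ = 1 := by
    have e : δ = 5 + (δ - 5) := by ring
    rw [e, v.map_add_eq_of_lt_left, h5]
    rw [h5]
    exact hD.trans_lt hlt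
  rw [idx_ofM S ⊤ (fun x y h => ?_), AddSubgroup.index_top]
  refine ⟨fun _ => AddSubgroup.mem_top _, fun _ => ?_⟩
  rw [sing_two h2 hD1 (S.eqn h.1)]
  by_contra hc
  push Not at hc
  have hx := small_le hc
  have hE := S.eqn h.1
  have hx3 : v (x ^ 3) ≤ exp (-3) := by
    rw [map_pow]
    calc v x ^ 3 ≤ exp (-1) ^ 3 := by gcongr
      _ = exp (-3) := by rw [exp_cube]; rfl
  have hd3 : v (δ ^ 3 - 5) ≤ exp (-3) := by
    have e : δ ^ 3 - 5 = (δ - 5) * (δ ^ 2 + 5 * δ + 25) + 8 * 15 := by ring
    rw [e]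
    refine (v.map_add _ _).trans (max_le ?_ ?_)
    · rw [map_mul]
      calc v (δ - 5) * v (δ ^ 2 + 5 * δ + 25) ≤ exp (-3) * 1 := by
            refine mul_le_mul' hD (vadd (vadd (vpow hD1.le 2) (vmul h5.le hD1.le)) ?_)
            exact_mod_cast vnat v 25
        _ = exp (-3) := mul_one _
    · have e8 : (8 : L) = 2 ^ 3 := by norm_num
      rw [map_mul, e8, map_pow, h2, exp_cube]
      calc exp (3 * -1) * v (15 : L) ≤ exp (3 * -1) * 1 := by
            refine mul_le_mul' le_rfl ?_
            exact_mod_cast vnat v 15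
        _ = exp (-3) := mul_one _
  have hy1 : v y = 1 := by
    have h6 : v (y ^ 2) = 1 := by
      have e : y ^ 2 = 5 + (x ^ 3 + (δ ^ 3 - 5)) := by rw [hE]; ring
      rw [e, v.map_add_eq_of_lt_left, h5]
      rw [h5]
      exact ((v.map_add _ _).trans (max_le hx3 hd3)).trans_lt hlt
    rw [map_pow] at h6
    exact (pow_eq_one_iff_of_nonneg zero_le two_ne_zero).1 h6
  have h7 := sq_mod8 h2 hres hy1
  have h8 : v (2 ^ 2 : L) ≤ exp (-3) := by
    have e : (2 ^ 2 : L) = (y ^ 2 - 1) - (x ^ 3 + (δ ^ 3 - 5)) := by rw [hE]; ring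
    rw [e]
    refine (v.map_sub _ _).trans (max_le h7 ((v.map_add _ _).trans (max_le hx3 hd3)))
  rw [map_pow, h2, exp_sq, exp_le_exp] at h8
  omega

/-- index three at a place above two, `δ ≡ 1 mod 8` -/
theorem idxM_p2three (S : VM W δ) (h2 : v (2 : L) = exp (-1)) (hD : v δ = 1) {c : L}
    (hc : c ^ 2 = δ ^ 3) :
    (AddSubgroup.closure {P : W.toAffine.Point | ∀ x y h, P = Affine.Point.some x y h →
      1 < v x ∨ v (W.a₁ * y - (3 * x ^ 2 + 2 * W.a₂ * x + W.a₄)) = 1 ∨
      v (2 * y + W.a₁ * x + W.a₃) = 1}).index = 3 := by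
  have hc0 : c ≠ 0 := by
    rintro rfl
    rw [zero_pow two_ne_zero] at hc
    exact pow_ne_zero 3 S.hδ hc.symm
  have h2c : 2 * c ≠ 0 := mul_ne_zero two_ne_zero hc0
  have hvc : v c = 1 := by
    have h6 : v (c ^ 2) = 1 := by rw [hc, map_pow, hD, one_pow]
    rw [map_pow] at h6
    exact (pow_eq_one_iff_of_nonneg zero_le two_ne_zero).1 h6
  have hv2c : v (2 * c) = exp (-1) := by rw [map_mul, h2, hvc, mul_one]
  have hcc : -c ≠ c := by
    intro h0
    exact h2c (by linear_combination -h0)
  have hv2c' : v (-c - c) = exp (-1) := by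
    have e : -c - c = -(2 * c) := by ring
    rw [e, Valuation.map_neg, hv2c]
  rw [idx_ofM S (fh v S hc).ker (fun x y h => ?_)]
  · rw [AddSubgroup.index_ker]
    have hns : W.toAffine.Nonsingular 0 (-c) := by
      rw [Affine.nonsingular_iff, Affine.equation_iff, S.h1, S.h2, S.h3, S.h4, S.h6]
      refine ⟨by linear_combination hc, Or.inr ?_⟩
      intro h0
      exact hcc (by linear_combination h0)
    have hmem : (2 : ZMod 3) ∈ (fh v S hc).range := by
      refine ⟨.some 0 (-c) hns, ?_⟩
      show lg3 v (dz c (-c)) = 2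
      rw [dz_ne hcc, lg3_exp v hv2c']
      rfl
    have htop : (fh v S hc).range = ⊤ := by
      rw [eq_top_iff]
      intro z _
      have h4 : (2 : ZMod 3) + 2 ∈ (fh v S hc).range := add_mem hmem hmem
      have h5 : (0 : ZMod 3) ∈ (fh v S hc).range := zero_mem _
      have h6 : ∀ z : ZMod 3, z = 0 ∨ z = 2 ∨ z = 2 + 2 := by decide
      rcases h6 z with rfl | rfl | rfl
      · exact h5
      · exact hmem
      · exact h4
    rw [htop]
    simp
  · rw [sing_two h2 hD (S.eqn h.1), mem_fh]
    have hE : (y - c) * (y + c) = x ^ 3 := by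
      have := S.eqn h.1
      linear_combination this - hc
    constructor
    · intro h1
      rcases h1.lt_or_eq with h5 | h5
      · -- `v x > 1`
        have hx0 : x ≠ 0 := by
          rintro rfl
          simp at h5
        obtain ⟨m, hm⟩ := exists_exp v hx0
        have hm0 : 0 < m := by
          rw [hm, ← exp_zero, exp_lt_exp] at h5; exact h5
        have hy2 : v (y ^ 2) = exp (3 * m) := by
          rw [S.eqn h.1, v.map_add_eq_of_lt_left, map_pow, hm, exp_cube]
          rw [map_pow, map_pow, hD, hm, exp_cube, one_pow, ← exp_zero, exp_lt_exp]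
          omega
        have hy0 : y ≠ 0 := by
          rintro rfl
          rw [zero_pow two_ne_zero, map_zero] at hy2
          exact exp_ne_zero hy2.symm
        obtain ⟨k, hk⟩ := exists_exp v hy0
        rw [map_pow, hk, exp_sq, exp_inj] at hy2
        have hyc : v (y - c) = exp k := by
          rw [Valuation.map_sub_eq_of_lt_left v, hk]
          rw [hvc, hk, ← exp_zero, exp_lt_exp]
          omega
        have hne : y ≠ c := by
          rintro rfl
          rw [hvc, ← exp_zero, exp_inj] at hk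
          omega
        rw [dz_ne hne, lg3_exp v hyc, ZMod.intCast_zmod_eq_zero_iff_dvd]
        omega
      · -- `v x = 1`
        have hy := y_intM hD.le (S.eqn h.1) h5.ge
        have i1 : v (y - c) ≤ 1 := vsub hy hvc.le
        have i2 : v (y + c) ≤ 1 := vadd hy hvc.le
        have h6 : v (y - c) * v (y + c) = 1 := by
          rw [← map_mul, hE, map_pow, ← h5, one_pow]
        have u1 : v (y - c) = 1 := by
          refine le_antisymm i1 ?_
          by_contra hcon
          push Not at hcon
          have : v (y - c) * v (y + c) < 1 := mul_lt_one_of_lt_of_le hcon i2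
          rw [h6] at this
          exact lt_irrefl _ this
        have hne : y ≠ c := by
          rintro rfl
          rw [sub_self, map_zero] at u1
          exact zero_ne_one u1
        rw [dz_ne hne, lg3_exp v (m := 0) (by rw [u1, exp_zero])]
        rfl
    · intro h1
      by_contra hcon
      push Not at hcon
      by_cases h3 : y = c
      · rw [h3, dz_c, lg3_exp v (m := -2) (by rw [map_pow, hv2c, exp_sq]; rfl)] at h1
        exact absurd h1 (by decide)
      · by_cases h4 : y = -c
        · rw [h4, dz_ne hcc, lg3_exp v hv2c'] at h1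
          exact absurd h1 (by decide)
        · have hx0 : x ≠ 0 := by
            rintro rfl
            have : (y - c) * (y + c) = 0 := by rw [hE]; ring
            rcases mul_eq_zero.1 this with h5 | h5
            · exact h3 (sub_eq_zero.1 h5)
            · exact h4 (eq_neg_of_add_eq_zero_left h5)
          obtain ⟨a, ha⟩ := exists_exp v hx0
          rw [ha, ← exp_zero, exp_lt_exp] at hcon
          have hy := y_intM hD.le (S.eqn h.1) (by rw [ha, ← exp_zero, exp_le_exp]; omega)
          obtain ⟨i, hi⟩ := exists_exp v (sub_ne_zero.2 h3)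
          obtain ⟨j, hj⟩ := exists_exp v (x := y + c) (by
            intro h5
            exact h4 (eq_neg_of_add_eq_zero_left h5))
          have hij : i + j = 3 * a := by
            have h6 := congrArg v hE
            rw [map_mul, map_pow, hi, hj, ha, ← exp_add, exp_cube, exp_inj] at h6
            exact h6
          have i1 : v (y - c) ≤ 1 := vsub hy hvc.le
          have i2 : v (y + c) ≤ 1 := vadd hy hvc.le
          rw [hi, ← exp_zero, exp_le_exp] at i1
          rw [hj, ← exp_zero, exp_le_exp] at i2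
          have e1 : y + c = (y - c) + 2 * c := by ring
          have e2 : y - c = (y + c) - 2 * c := by ring
          have k1 : i ≤ -1 := by
            by_contra h7
            have h8 : v (y + c) = v (y - c) := by
              rw [e1, v.map_add_eq_of_lt_left]
              rw [hv2c, hi, exp_lt_exp]
              omega
            rw [hi, hj, exp_inj] at h8
            omega
          have k3 : i = -1 ∨ j = -1 := by
            rcases eq_or_ne i (-1) with h7 | h7
            · exact Or.inl h7
            · right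
              have h8 : v (y + c) = v (2 * c) := by
                rw [e1, v.map_add_eq_of_lt_right]
                rw [hv2c, hi, exp_lt_exp]
                omega
              rw [hv2c, hj, exp_inj] at h8
              exact h8
          rw [dz_ne h3, lg3_exp v hi, ZMod.intCast_zmod_eq_zero_iff_dvd] at h1
          omega

end two

end Pool.Agent.L0h86.F1
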